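import Mathlib

/-!
# Antiderivatives of rational functions in characteristic `p`
-/

set_option autoImplicit false
open Polynomial

namespace Run7.h131.PP

lemma iter_der {κ : Type*} [CommRing κ] (A B : κ[X]) (n : ℕ) : ∀ j ≤ n, ∃ E : κ[X],
    derivative^[j] (A * B ^ n) = (n.descFactorial j : κ[X]) *
      (A * B ^ (n - j) * (derivative B) ^ j) + E * B ^ (n - j + 1) := by
  intro j
  induction j with
  | zero => intro _; exact ⟨0, by simp⟩
  | succ j ih =>
    intro hj
    obtain ⟨E, hE⟩ := ih (by omega)
    obtain ⟨m, hm⟩ : ∃ m, n - j = m + 1 := ⟨n - j - 1, by omega⟩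
    have hm' : n - (j + 1) = m := by omega
    rw [Function.iterate_succ_apply', hE, hm, hm', Nat.descFactorial_succ, hm]
    refine ⟨(n.descFactorial j : κ[X]) * (derivative A * (derivative B) ^ j +
      A * derivative ((derivative B) ^ j)) + derivative E * B + E * ((m + 2 : ℕ) : κ[X]) *
      derivative B, ?_⟩
    simp only [derivative_add, derivative_mul, derivative_natCast, derivative_pow_succ]
    push_cast
    simp only [map_add, map_natCast, map_one, pow_succ]
    ring

theorem cart_dvd {κ : Type*} [Field κ] {p : ℕ} [hp : Fact p.Prime] [CharP κ p] {A B : κ[X]}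
    (hB : IsCoprime B (derivative B))
    (h : ∀ j, 1 ≤ j → (A * B ^ (p - 1)).coeff (p * j - 1) = 0) : B ∣ A := by
  have hp1 := hp.out.two_le
  have h0 : derivative^[p - 1] (A * B ^ (p - 1)) = 0 := by
    ext m
    rw [coeff_iterate_derivative, coeff_zero]
    by_cases hm : p ∣ m
    · obtain ⟨c, rfl⟩ := hm
      have e : p * c + (p - 1) = p * (c + 1) - 1 := by
        rw [mul_add, mul_one]; omega
      rw [e, h _ (by omega), smul_zero]
    · have h1 : p ∣ (m + (p - 1)).descFactorial (p - 1) := by
        rw [Nat.descFactorial_eq_prod_range]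
        have hm0 : m % p ≠ 0 := fun h => hm (Nat.dvd_of_mod_eq_zero h)
        have hml : m % p < p := Nat.mod_lt _ hp.out.pos
        refine Dvd.dvd.trans ?_ (Finset.dvd_prod_of_mem _ (a := m % p - 1)
          (Finset.mem_range.2 (by omega)))
        refine ⟨m / p + 1, ?_⟩
        have h2 := Nat.div_add_mod m p
        rw [mul_add, mul_one]
        omega
      rw [nsmul_eq_mul, (CharP.cast_eq_zero_iff κ p _).2 h1, zero_mul]
  obtain ⟨E, hE⟩ := iter_der A B (p - 1) (p - 1) le_rfl
  rw [h0, Nat.descFactorial_self, Nat.sub_self, pow_zero, mul_one, zero_add, pow_one] at hE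
  have hfac : ((p - 1).factorial : κ[X]) ≠ 0 := by
    have : ((p - 1).factorial : κ[X]) = C (((p - 1).factorial : ℕ) : κ) := by simp
    rw [this, Ne, C_eq_zero, CharP.cast_eq_zero_iff κ p, hp.out.dvd_factorial]
    omega
  have hunit : IsUnit (((p - 1).factorial : ℕ) : κ[X]) := by
    have e : ((p - 1).factorial : κ[X]) = C (((p - 1).factorial : ℕ) : κ) := by simp
    rw [e]
    refine isUnit_C.2 (isUnit_iff_ne_zero.2 fun h1 => hfac ?_)
    rw [e, h1, map_zero]
  have h2 : B ∣ ((p - 1).factorial : κ[X]) * (A * derivative B ^ (p - 1)) := by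
    refine ⟨-E, ?_⟩
    linear_combination -hE
  have h3 : B ∣ A * derivative B ^ (p - 1) := (hunit.dvd_mul_left).1 h2
  exact (hB.pow_right (n := p - 1)).dvd_of_dvd_mul_right h3

theorem ps_cart {κ : Type*} [Field κ] {p : ℕ} [hp : Fact p.Prime] [CharP κ p] {A B : κ[X]}
    {u : PowerSeries κ} {L : ℕ} (hL : A.natDegree + B.natDegree * (p - 1) < L)
    (hB : IsCoprime B (derivative B))
    (h : ∀ k < L, PowerSeries.coeff k ((B : PowerSeries κ) * PowerSeries.derivative κ u) =
      A.coeff k) : B ∣ A := by
  have hp1 := hp.out.two_le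
  apply cart_dvd (p := p) hB
  intro j hj
  rcases Nat.lt_or_ge (p * j - 1) L with hlt | hge
  · -- congruence
    have h1 : (PowerSeries.X : PowerSeries κ) ^ L ∣
        (B : PowerSeries κ) * PowerSeries.derivative κ u - (A : PowerSeries κ) := by
      rw [PowerSeries.X_pow_dvd_iff]
      intro m hm
      rw [map_sub, h m hm, Polynomial.coeff_coe, sub_self]
    have h2 : (PowerSeries.X : PowerSeries κ) ^ L ∣
        ((B ^ p : κ[X]) : PowerSeries κ) * PowerSeries.derivative κ u -
          ((A * B ^ (p - 1) : κ[X]) : PowerSeries κ) := by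
      have e : ((B ^ p : κ[X]) : PowerSeries κ) * PowerSeries.derivative κ u -
          ((A * B ^ (p - 1) : κ[X]) : PowerSeries κ) = ((B ^ (p - 1) : κ[X]) : PowerSeries κ) *
            ((B : PowerSeries κ) * PowerSeries.derivative κ u - (A : PowerSeries κ)) := by
        have e1 : (B ^ p : κ[X]) = B ^ (p - 1) * B := by
          rw [← pow_succ, Nat.sub_add_cancel (by omega)]
        rw [e1]
        push_cast
        ring
      rw [e]
      exact Dvd.dvd.mul_left h1 _
    rw [PowerSeries.X_pow_dvd_iff] at h2
    have h3 := h2 _ hlt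
    rw [map_sub, Polynomial.coeff_coe, sub_eq_zero] at h3
    rw [← h3, PowerSeries.coeff_mul]
    refine Finset.sum_eq_zero fun ij hij => ?_
    have hij' := Finset.HasAntidiagonal.mem_antidiagonal.1 hij
    rw [Polynomial.coeff_coe, ← Polynomial.map_frobenius_expand, coeff_map, coeff_expand hp.out.pos]
    split_ifs with hd
    · obtain ⟨c, hc⟩ := hd
      have e : ij.2 + 1 = p * (j - c) := by
        have : p * (j - c) = p * j - p * c := Nat.mul_sub p j c
        rw [this]
        have : 0 < p * j := Nat.mul_pos hp.out.pos (by omega)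
        omega
      have h4 : PowerSeries.coeff ij.2 (PowerSeries.derivative κ u) = 0 := by
        rw [PowerSeries.coeff_derivative]
        have : ((ij.2 : κ) + 1) = ((ij.2 + 1 : ℕ) : κ) := by push_cast; ring
        rw [this, e]
        push_cast
        rw [CharP.cast_eq_zero κ p, zero_mul, mul_zero]
      rw [h4, mul_zero]
    · rw [map_zero, zero_mul]
  · apply coeff_eq_zero_of_natDegree_lt
    calc (A * B ^ (p - 1)).natDegree ≤ A.natDegree + (B ^ (p - 1)).natDegree := natDegree_mul_le
      _ ≤ A.natDegree + (p - 1) * B.natDegree := by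
          have := natDegree_pow_le (p := B) (n := p - 1)
          omega
      _ < p * j - 1 := by rw [mul_comm (p - 1)]; omega

end Run7.h131.PP
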