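import Mathlib
import Pool.Agent.H497R2.Car
import Pool.Agent.H497R2.Eis
import Pool.Agent.Run7.h131.PP.Cart

/-!
# Integral antiderivatives of rational functions over number fields
-/

set_option autoImplicit false
open NumberField IsDedekindDomain Filter Polynomial
open H497R2

namespace Run7.h131.PP

variable {K : Type*} [Field K] [NumberField K]

lemma inf_hos (K : Type*) [Field K] [NumberField K] : Infinite (HeightOneSpectrum (𝓞 K)) := by
  by_contra hfin
  rw [not_infinite_iff_finite] at hfin
  obtain ⟨B, hB⟩ := (Set.finite_range (rc (K := K))).bddAbove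
  obtain ⟨p, hpB, hp⟩ := Nat.exists_infinite_primes (B + 1)
  have hpK : ((p : ℕ) : 𝓞 K) ≠ 0 := by exact_mod_cast hp.ne_zero
  have hnu : ¬ IsUnit ((p : ℕ) : 𝓞 K) := by
    intro hu
    have h1 : IsUnit (Algebra.norm ℤ ((p : ℕ) : 𝓞 K)) := hu.map (Algebra.norm ℤ)
    have h2 : Algebra.norm ℤ ((p : ℕ) : 𝓞 K) = (p : ℤ) ^ Module.finrank ℤ (𝓞 K) := by
      have := Algebra.norm_algebraMap (S := 𝓞 K) (p : ℤ)
      simpa using this
    rw [h2] at h1
    have h3 : Module.finrank ℤ (𝓞 K) ≠ 0 := by
      rw [RingOfIntegers.rank]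
      exact Module.finrank_pos.ne'
    exact (Nat.prime_iff_prime_int.1 hp).not_isUnit ((isUnit_pow_iff h3).1 h1)
  obtain ⟨m, hm, hle⟩ := Ideal.exists_le_maximal (Ideal.span {((p : ℕ) : 𝓞 K)})
    (by rwa [Ne, Ideal.span_singleton_eq_top])
  have hpm : ((p : ℕ) : 𝓞 K) ∈ m := hle (Ideal.mem_span_singleton_self _)
  let v : HeightOneSpectrum (𝓞 K) := ⟨m, hm.isPrime, by
    intro h0
    rw [h0, Ideal.mem_bot] at hpm
    exact hpK hpm⟩
  have h1 : rc v ∣ p := (natCast_mem_iff v p).1 hpm
  have h2 : rc v = p := (Nat.prime_dvd_prime_iff_eq (rc_prime v) hp).1 h1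
  have h3 := hB ⟨v, rfl⟩
  omega

/-- lifts of polynomials to the valuation ring -/
lemma ev_lift (P : K[X]) : ∀ᶠ v : HeightOneSpectrum (𝓞 K) in cofinite,
    ∃ P' : (Ov v)[X], P'.map (algebraMap (Ov v) K) = P := by
  have h1 : ∀ᶠ v : HeightOneSpectrum (𝓞 K) in cofinite,
      ∀ i ∈ P.support, v.valuation K (P.coeff i) ≤ 1 := by
    rw [eventually_all_finset]
    exact fun i _ => ev_val_le_one _
  filter_upwards [h1] with v hv
  have h2 : P ∈ lifts (algebraMap (Ov v) K) := by
    rw [lifts_iff_coeff_lifts]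
    intro i
    by_cases hi : i ∈ P.support
    · exact ⟨⟨P.coeff i, hv i hi⟩, rfl⟩
    · rw [notMem_support_iff.1 hi]
      exact ⟨0, map_zero _⟩
  obtain ⟨P', hP'⟩ := (mem_lifts _).1 h2
  exact ⟨P', hP'⟩

lemma map_inj_v {v : HeightOneSpectrum (𝓞 K)} {P Q : (Ov v)[X]}
    (h : P.map (algebraMap (Ov v) K) = Q.map (algebraMap (Ov v) K)) : P = Q :=
  map_injective _ (IsFractionRing.injective (Ov v) K) h

lemma red_coeff {v : HeightOneSpectrum (𝓞 K)} {P : K[X]} {P' : (Ov v)[X]}
    (h : P'.map (algebraMap (Ov v) K) = P) (i : ℕ) :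
    red v (P.coeff i) = (P'.map (IsLocalRing.residue (Ov v))).coeff i := by
  rw [← h, coeff_map, coeff_map]
  have : v.valuation K (algebraMap (Ov v) K (P'.coeff i)) ≤ 1 := (P'.coeff i).2
  rw [red_of_le this]
  rfl

theorem nf_dvd {u : PowerSeries K} (hu : OmInt u) {A B : K[X]} (hB : IsCoprime B (derivative B))
    (h : (B : PowerSeries K) * PowerSeries.derivative K u = (A : PowerSeries K)) : B ∣ A := by
  classical
  by_contra hnd
  have hB0 : B ≠ 0 := by
    rintro rfl
    rw [derivative_zero, isCoprime_zero_left] at hB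
    exact not_isUnit_zero hB
  obtain ⟨a, b, hab⟩ := hB
  set Q := A / B with hQ
  set A1 := A % B with hA1
  have hdiv : B * Q + A1 = A := EuclideanDomain.div_add_mod A B
  have hA10 : A1 ≠ 0 := by
    intro h0
    apply hnd
    rw [← hdiv, h0, add_zero]
    exact dvd_mul_right _ _
  have hdeg : A1.degree < B.degree := EuclideanDomain.mod_lt A hB0
  have hlc : B.leadingCoeff ≠ 0 := leadingCoeff_ne_zero.2 hB0
  have hlc1 : A1.leadingCoeff ≠ 0 := leadingCoeff_ne_zero.2 hA10
  haveI := inf_hos K
  obtain ⟨v, ⟨A', hA'⟩, ⟨B', hB'⟩, ⟨a', ha'⟩, ⟨b', hb'⟩, ⟨Q', hQ'⟩, ⟨A1', hA1'⟩, hv1, hv2, hu', hrc⟩ :=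
    ((ev_lift A).and ((ev_lift B).and ((ev_lift a).and ((ev_lift b).and ((ev_lift Q).and
      ((ev_lift A1).and ((ev_val_eq_one hlc).and ((ev_val_eq_one hlc1).and
      ((hu (A.natDegree + B.natDegree + 1)).and
        (ev_rc_gt (A.natDegree + B.natDegree + 1))))))))))).exists
  rw [leadingCoeff] at hv1 hv2
  -- identities over the valuation ring
  have e1 : B' * Q' + A1' = A' := by
    apply map_inj_v
    rw [Polynomial.map_add, Polynomial.map_mul, hA', hB', hQ', hA1', hdiv]
  have e2 : a' * B' + b' * derivative B' = 1 := by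
    apply map_inj_v
    rw [Polynomial.map_add, Polynomial.map_mul, Polynomial.map_mul, ← derivative_map, hB', ha', hb',
      hab, Polynomial.map_one]
  let ρ := IsLocalRing.residue (Ov v)
  let Ab := A'.map ρ
  let Bb := B'.map ρ
  have e1b : Bb * Q'.map ρ + A1'.map ρ = Ab := by
    simp only [Ab, Bb]
    rw [← e1, Polynomial.map_add, Polynomial.map_mul]
  have e2b : IsCoprime Bb (derivative Bb) := by
    refine ⟨a'.map ρ, b'.map ρ, ?_⟩
    simp only [Bb]
    rw [derivative_map, ← Polynomial.map_mul, ← Polynomial.map_mul, ← Polynomial.map_add, e2,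
      Polynomial.map_one]
  have hAd : Ab.natDegree ≤ A.natDegree := by
    rw [← hA', natDegree_map_eq_of_injective (IsFractionRing.injective (Ov v) K)]
    exact natDegree_map_le
  have hBd : Bb.natDegree ≤ B.natDegree := by
    rw [← hB', natDegree_map_eq_of_injective (IsFractionRing.injective (Ov v) K)]
    exact natDegree_map_le
  -- the reduction of `u`
  have hdvd : Bb ∣ Ab := by
    refine ps_cart (p := rc v) (u := redS v u)
      (L := (A.natDegree + B.natDegree + 1) * rc v) ?_ e2b ?_
    · have h2 := (rc_prime v).two_le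
      calc Ab.natDegree + Bb.natDegree * (rc v - 1)
          ≤ A.natDegree + B.natDegree * rc v :=
            add_le_add hAd (Nat.mul_le_mul hBd (Nat.sub_le _ _))
        _ < (A.natDegree + B.natDegree + 1) * rc v := by nlinarith
    · intro k hk
      have hmB : (B : PowerSeries K) ∈ Av v ((A.natDegree + B.natDegree + 1) * rc v) := by
        intro i _
        rw [Polynomial.coeff_coe, ← hB', coeff_map]
        exact (B'.coeff i).2
      have h1 := congrArg (fun w => red v (PowerSeries.coeff k w)) h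
      beta_reduce at h1
      rw [Polynomial.coeff_coe, red_coeff hA'] at h1
      rw [← h1, PowerSeries.coeff_mul, PowerSeries.coeff_mul, red_sum]
      · refine Finset.sum_congr rfl fun ij hij => ?_
        have hij' := Finset.HasAntidiagonal.mem_antidiagonal.1 hij
        have h3 : v.valuation K (PowerSeries.coeff (ij.2 + 1) u) ≤ 1 := hu' _ (by omega)
        have h4 : v.valuation K ((ij.2 : K) + 1) ≤ 1 := by
          have : ((ij.2 : K) + 1) = ((ij.2 + 1 : ℕ) : K) := by push_cast; ring
          rw [this]; exact val_nat_le v _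
        rw [PowerSeries.coeff_derivative, PowerSeries.coeff_derivative, coeff_redS,
          red_mul (hmB _ (by omega)) (by rw [map_mul]; exact mul_le_one' h3 h4), red_mul h3 h4,
          Polynomial.coeff_coe, Polynomial.coeff_coe, red_coeff hB']
        congr 2
        have : ((ij.2 : K) + 1) = ((ij.2 + 1 : ℕ) : K) := by push_cast; ring
        rw [this, red_natCast]
        push_cast; ring
      · intro ij hij
        have hij' := Finset.HasAntidiagonal.mem_antidiagonal.1 hij
        have h3 : v.valuation K (PowerSeries.coeff (ij.2 + 1) u) ≤ 1 := hu' _ (by omega)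
        have h4 : v.valuation K ((ij.2 : K) + 1) ≤ 1 := by
          have : ((ij.2 : K) + 1) = ((ij.2 + 1 : ℕ) : K) := by push_cast; ring
          rw [this]; exact val_nat_le v _
        rw [PowerSeries.coeff_derivative, map_mul, map_mul]
        exact mul_le_one' (hmB _ (by omega)) (mul_le_one' h3 h4)
  -- contradiction
  have hd1 : Bb ∣ A1'.map ρ := by
    rw [← e1b] at hdvd
    exact (dvd_add_right (dvd_mul_right _ _)).1 hdvd
  have hlcB : Bb.coeff B.natDegree ≠ 0 := by
    rw [← red_coeff hB', Ne, red_eq_zero hv1.le]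
    exact hv1.not_lt
  have hlcA : (A1'.map ρ).coeff A1.natDegree ≠ 0 := by
    rw [← red_coeff hA1', Ne, red_eq_zero hv2.le]
    exact hv2.not_lt
  have hA1ne : A1'.map ρ ≠ 0 := by
    intro h0; rw [h0, coeff_zero] at hlcA; exact hlcA rfl
  have hA1d : (A1'.map ρ).natDegree ≤ A1.natDegree := by
    rw [← hA1', natDegree_map_eq_of_injective (IsFractionRing.injective (Ov v) K)]
    exact natDegree_map_le
  have h5 := natDegree_le_of_dvd hd1 hA1ne
  have h6 : B.natDegree ≤ Bb.natDegree := le_natDegree_of_ne_zero hlcB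
  have h7 : A1.natDegree < B.natDegree := natDegree_lt_natDegree hA10 hdeg
  omega

end Run7.h131.PP
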