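import Mathlib
import Pool.Agent.Run7.h131.LL.Spc
import Pool.Agent.Run7.h131.PP.NF

/-!
# Power series all of whose specialisations are integral
-/

set_option autoImplicit false
open PowerSeries NumberField
open H497R2 (OmInt OmAlg OmInt_C OmInt_X)

namespace Run7.h131.PP

variable {k : Type*} [Field k] [CharZero k]

/-- all specialisations to number fields are integral -/
def SO (u : k⟦X⟧) : Prop :=
  ∃ S : Finset k, ∀ A : Subalgebra ℚ k, (S : Set k) ⊆ A →
    ∃ u' : A⟦X⟧, map (A.val : A →+* k) u' = u ∧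
      ∀ (K : Type) [Field K] [NumberField K] (σ : A →+* K), OmInt (map σ u')

lemma SO.add {u v : k⟦X⟧} (hu : SO u) (hv : SO v) : SO (u + v) := by
  classical
  obtain ⟨S, hS⟩ := hu
  obtain ⟨T, hT⟩ := hv
  refine ⟨S ∪ T, fun A hA => ?_⟩
  rw [Finset.coe_union, Set.union_subset_iff] at hA
  obtain ⟨u', h1, h2⟩ := hS A hA.1
  obtain ⟨v', h3, h4⟩ := hT A hA.2
  exact ⟨u' + v', by rw [map_add, h1, h3], fun K _ _ σ => by
    rw [map_add]; exact (h2 K σ).add (h4 K σ)⟩

lemma SO.mul {u v : k⟦X⟧} (hu : SO u) (hv : SO v) : SO (u * v) := by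
  classical
  obtain ⟨S, hS⟩ := hu
  obtain ⟨T, hT⟩ := hv
  refine ⟨S ∪ T, fun A hA => ?_⟩
  rw [Finset.coe_union, Set.union_subset_iff] at hA
  obtain ⟨u', h1, h2⟩ := hS A hA.1
  obtain ⟨v', h3, h4⟩ := hT A hA.2
  exact ⟨u' * v', by rw [map_mul, h1, h3], fun K _ _ σ => by
    rw [map_mul]; exact (h2 K σ).mul (h4 K σ)⟩

lemma SO.neg {u : k⟦X⟧} (hu : SO u) : SO (-u) := by
  obtain ⟨S, hS⟩ := hu
  refine ⟨S, fun A hA => ?_⟩
  obtain ⟨u', h1, h2⟩ := hS A hA
  exact ⟨-u', by rw [map_neg, h1], fun K _ _ σ => by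
    rw [map_neg]; exact (h2 K σ).neg⟩

lemma SO_C (c : k) : SO (C c : k⟦X⟧) := by
  refine ⟨{c}, fun A hA => ?_⟩
  have hc : c ∈ A := hA (by simp)
  refine ⟨C ⟨c, hc⟩, by rw [map_C]; rfl, fun K _ _ σ => ?_⟩
  rw [map_C]; exact OmInt_C _

lemma SO_X : SO (X : k⟦X⟧) := by
  refine ⟨∅, fun A hA => ⟨X, map_X _, fun K _ _ σ => ?_⟩⟩
  rw [map_X]; exact OmInt_X

lemma der_map' {A K : Type*} [CommRing A] [CommRing K] (φ : A →+* K) (f : A⟦X⟧) :
    map φ (d⁄dX A f) = d⁄dX K (map φ f) := by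
  ext n
  rw [coeff_map, coeff_derivative, coeff_derivative, coeff_map, map_mul, map_add, map_natCast,
    map_one]

lemma SO.deriv {u : k⟦X⟧} (hu : SO u) : SO (d⁄dX k u) := by
  obtain ⟨S, hS⟩ := hu
  refine ⟨S, fun A hA => ?_⟩
  obtain ⟨u', h1, h2⟩ := hS A hA
  refine ⟨d⁄dX A u', by rw [der_map', h1], fun K _ _ σ => ?_⟩
  rw [der_map']
  exact (h2 K σ).deriv

/-- the ring of these series -/
noncomputable def SOr (k : Type*) [Field k] [CharZero k] : Subring k⟦X⟧ where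
  carrier := {u | SO u}
  mul_mem' := fun h1 h2 => SO.mul h1 h2
  add_mem' := fun h1 h2 => SO.add h1 h2
  neg_mem' := fun h => SO.neg h
  one_mem' := by
    have := SO_C (1 : k)
    rwa [map_one] at this
  zero_mem' := by
    have := SO_C (0 : k)
    rwa [map_zero] at this

lemma SO_poly (p : Polynomial k) : SO (p : k⟦X⟧) := by
  have h : (p : k⟦X⟧) ∈ SOr k := by
    induction p using Polynomial.induction_on' with
    | add p q hp hq => rw [Polynomial.coe_add]; exact add_mem hp hq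
    | monomial n c =>
      rw [← Polynomial.C_mul_X_pow_eq_monomial, Polynomial.coe_mul, Polynomial.coe_pow,
        Polynomial.coe_C, Polynomial.coe_X]
      exact mul_mem (SO_C c) (pow_mem SO_X n)
  exact h

section nf

variable {K : Type*} [Field K] [NumberField K]

/-- the number field case, unit denominator -/
lemma nf_quot_unit {g h : K⟦X⟧} (hg : OmInt g) (hh : OmInt h) (hh0 : constantCoeff h ≠ 0)
    {A B : Polynomial K} (hB : IsCoprime B (Polynomial.derivative B))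
    (heq : (B : K⟦X⟧) * (d⁄dX K g * h - d⁄dX K h * g) = (A : K⟦X⟧) * h ^ 2) : B ∣ A := by
  have hi : h * h⁻¹ = 1 := PowerSeries.mul_inv_cancel _ hh0
  have hne : h ≠ 0 := by rintro rfl; exact hh0 (map_zero _)
  refine nf_dvd (u := g * h⁻¹) (hg.mul (hh.inv hh0)) hB ?_
  have h1 : g * h⁻¹ * h = g := by rw [mul_assoc, mul_comm h⁻¹ h, hi, mul_one]
  have h2 := congrArg (d⁄dX K) h1
  rw [Derivation.leibniz, smul_eq_mul, smul_eq_mul] at h2
  apply mul_right_cancel₀ (pow_ne_zero 2 hne)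
  rw [← heq, ← h2]
  have h3 : d⁄dX K h * g = d⁄dX K h * (g * h⁻¹ * h) := by rw [h1]
  rw [h3]
  ring

/-- the number field case for quotients -/
lemma nf_quot {g h : K⟦X⟧} (hg : OmInt g) (hh : OmInt h) (hh0 : h ≠ 0) {A B : Polynomial K}
    (hB : IsCoprime B (Polynomial.derivative B))
    (heq : (B : K⟦X⟧) * (d⁄dX K g * h - d⁄dX K h * g) = (A : K⟦X⟧) * h ^ 2) : B ∣ A := by
  obtain ⟨m, h1, h1c, rfl⟩ := H497R2.order_split hh0
  have hh1 : OmInt h1 := hh.of_X_pow_mul m
  by_cases hg0 : g = 0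
  · rw [hg0, map_zero, zero_mul, mul_zero, sub_zero, mul_zero] at heq
    have h2 : (A : K⟦X⟧) = 0 := by
      rcases mul_eq_zero.1 heq.symm with h | h
      · exact h
      · exact absurd (pow_eq_zero_iff (two_ne_zero) |>.1 h) hh0
    have h3 : A = 0 := Polynomial.coe_injective K (by rw [h2, Polynomial.coe_zero])
    rw [h3]; exact dvd_zero _
  obtain ⟨l, g1, g1c, rfl⟩ := H497R2.order_split hg0
  have hg1 : OmInt g1 := hg.of_X_pow_mul l
  -- cancellation of common powers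
  have hcan : ∀ (c : ℕ) (x y : K⟦X⟧),
      (B : K⟦X⟧) * (d⁄dX K (X ^ c * x) * (X ^ c * y) - d⁄dX K (X ^ c * y) * (X ^ c * x)) =
        (A : K⟦X⟧) * (X ^ c * y) ^ 2 →
      (B : K⟦X⟧) * (d⁄dX K x * y - d⁄dX K y * x) = (A : K⟦X⟧) * y ^ 2 := by
    intro c x y hc
    apply mul_left_cancel₀ (pow_ne_zero (2 * c) (X_ne_zero (R := K)))
    rw [Derivation.leibniz, Derivation.leibniz, smul_eq_mul, smul_eq_mul, smul_eq_mul,
      smul_eq_mul] at hc
    have e : (X : K⟦X⟧) ^ (2 * c) = X ^ c * X ^ c := by rw [← pow_add]; congr 1; omega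
    rw [e]
    linear_combination hc
  rcases Nat.lt_or_ge l m with hlt | hge
  · -- a pole at zero
    exfalso
    obtain ⟨s, rfl⟩ : ∃ s, m = l + (s + 1) := ⟨m - l - 1, by omega⟩
    have e0 : (X : K⟦X⟧) ^ (l + (s + 1)) * h1 = X ^ l * (X ^ (s + 1) * h1) := by
      rw [pow_add, mul_assoc]
    rw [e0] at heq
    have heq' := hcan l g1 (X ^ (s + 1) * h1) heq
    have hW : (B : K⟦X⟧) * (X * (d⁄dX K g1 * h1 - d⁄dX K h1 * g1) -
        ((s + 1 : ℕ) : K⟦X⟧) * (g1 * h1)) = (A : K⟦X⟧) * h1 ^ 2 * X ^ (s + 2) := by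
      apply mul_left_cancel₀ (pow_ne_zero s (X_ne_zero (R := K)))
      rw [Derivation.leibniz, Derivation.leibniz_pow, derivative_X, smul_eq_mul, smul_eq_mul,
        smul_eq_mul, nsmul_eq_mul, Nat.add_sub_cancel, mul_one] at heq'
      linear_combination heq'
    have hWc : constantCoeff (X * (d⁄dX K g1 * h1 - d⁄dX K h1 * g1) -
        ((s + 1 : ℕ) : K⟦X⟧) * (g1 * h1)) ≠ 0 := by
      rw [map_sub, map_mul, constantCoeff_X, zero_mul, zero_sub, map_mul, map_mul, map_natCast]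
      refine neg_ne_zero.2 (mul_ne_zero ?_ (mul_ne_zero g1c h1c))
      exact_mod_cast Nat.succ_ne_zero s
    have hXB : (X : K⟦X⟧) ^ 2 ∣ (B : K⟦X⟧) := by
      have h3 : (X : K⟦X⟧) ^ 2 ∣ (B : K⟦X⟧) * (X * (d⁄dX K g1 * h1 - d⁄dX K h1 * g1) -
          ((s + 1 : ℕ) : K⟦X⟧) * (g1 * h1)) := by
        rw [hW]
        exact Dvd.dvd.mul_left (pow_dvd_pow _ (by omega)) _
      have hu : IsUnit (X * (d⁄dX K g1 * h1 - d⁄dX K h1 * g1) -
          ((s + 1 : ℕ) : K⟦X⟧) * (g1 * h1)) :=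
        PowerSeries.isUnit_iff_constantCoeff.2 (isUnit_iff_ne_zero.2 hWc)
      exact (hu.dvd_mul_right).1 h3
    rw [X_pow_dvd_iff] at hXB
    have hb0 : B.coeff 0 = 0 := by rw [← Polynomial.coeff_coe]; exact hXB 0 (by norm_num)
    have hb1 : B.coeff 1 = 0 := by rw [← Polynomial.coeff_coe]; exact hXB 1 (by norm_num)
    have hd1 : (Polynomial.X : Polynomial K) ∣ B := Polynomial.X_dvd_iff.2 hb0
    have hd2 : (Polynomial.X : Polynomial K) ∣ Polynomial.derivative B := by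
      rw [Polynomial.X_dvd_iff, Polynomial.coeff_derivative, zero_add, hb1, zero_mul]
    exact Polynomial.not_isUnit_X (hB.isUnit_of_dvd' hd1 hd2)
  · obtain ⟨s, rfl⟩ : ∃ s, l = m + s := ⟨l - m, by omega⟩
    have e0 : (X : K⟦X⟧) ^ (m + s) * g1 = X ^ m * (X ^ s * g1) := by
      rw [pow_add, mul_assoc]
    rw [e0] at heq
    have heq' := hcan m (X ^ s * g1) h1 heq
    exact nf_quot_unit ((OmInt_X.pow s).mul hg1) hh1 h1c hB heq'

end nf

lemma lift_poly (A : Subalgebra ℚ k) (P : Polynomial k) (h : ∀ i, P.coeff i ∈ A) :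
    ∃ P' : Polynomial A, P'.map (A.val : A →+* k) = P := by
  have h2 : P ∈ Polynomial.lifts (A.val : A →+* k) := by
    rw [Polynomial.lifts_iff_coeff_lifts]
    exact fun i => ⟨⟨P.coeff i, h i⟩, rfl⟩
  exact (Polynomial.mem_lifts _).1 h2

lemma coeff_mem_of_support {A : Subalgebra ℚ k} {P : Polynomial k}
    (h : ∀ i ∈ P.support, P.coeff i ∈ A) (i : ℕ) : P.coeff i ∈ A := by
  by_cases hi : i ∈ P.support
  · exact h i hi
  · rw [Polynomial.notMem_support_iff.1 hi]; exact zero_mem _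

theorem so_dvd {g h : k⟦X⟧} (hg : SO g) (hh : SO h) (hh0 : h ≠ 0) {A B : Polynomial k}
    (hB : IsCoprime B (Polynomial.derivative B))
    (heq : (B : k⟦X⟧) * (d⁄dX k g * h - d⁄dX k h * g) = (A : k⟦X⟧) * h ^ 2) : B ∣ A := by
  classical
  by_contra hnd
  have hB0 : B ≠ 0 := by
    rintro rfl
    rw [Polynomial.derivative_zero, isCoprime_zero_left] at hB
    exact not_isUnit_zero hB
  obtain ⟨a, b, hab⟩ := hB
  set Q := A / B with hQ
  set A1 := A % B with hA1
  have hdiv : B * Q + A1 = A := EuclideanDomain.div_add_mod A B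
  have hA10 : A1 ≠ 0 := by
    intro h0
    apply hnd
    rw [← hdiv, h0, add_zero]
    exact dvd_mul_right _ _
  have hdeg : A1.degree < B.degree := EuclideanDomain.mod_lt A hB0
  obtain ⟨m, hm⟩ : ∃ m, coeff m h ≠ 0 := by
    by_contra hno
    push Not at hno
    exact hh0 (PowerSeries.ext fun m => by rw [hno m]; simp)
  obtain ⟨S, hS⟩ := hg
  obtain ⟨T, hT⟩ := hh
  let co : Polynomial k → Finset k := fun P => P.support.image P.coeff
  have hco : ∀ (R : Subalgebra ℚ k) (P : Polynomial k), ((co P : Finset k) : Set k) ⊆ R →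
      ∀ i, P.coeff i ∈ R := by
    intro R P hP
    apply coeff_mem_of_support
    intro i hi
    exact hP (Finset.mem_coe.2 (Finset.mem_image_of_mem _ hi))
  let W : Finset k := S ∪ T ∪ co A ∪ co B ∪ co Q ∪ co A1 ∪ co a ∪ co b ∪
    {(B.leadingCoeff)⁻¹, (A1.leadingCoeff)⁻¹, (coeff m h)⁻¹}
  let R := Algebra.adjoin ℚ (W : Set k)
  have hWR : (W : Set k) ⊆ R := Algebra.subset_adjoin
  simp only [W, Finset.coe_union, Set.union_subset_iff] at hWR
  obtain ⟨⟨⟨⟨⟨⟨⟨⟨w1, w2⟩, w3⟩, w4⟩, w5⟩, w6⟩, w7⟩, w8⟩, w9⟩ := hWR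
  obtain ⟨K, _, _, ⟨σ⟩⟩ := LL.exists_point W
  obtain ⟨g', hg1, hg2⟩ := hS R w1
  obtain ⟨h', hh1, hh2⟩ := hT R w2
  obtain ⟨A', hA'⟩ := lift_poly R A (hco R A w3)
  obtain ⟨B', hB'⟩ := lift_poly R B (hco R B w4)
  obtain ⟨Q', hQ'⟩ := lift_poly R Q (hco R Q w5)
  obtain ⟨A1', hA1'⟩ := lift_poly R A1 (hco R A1 w6)
  obtain ⟨a', ha'⟩ := lift_poly R a (hco R a w7)
  obtain ⟨b', hb'⟩ := lift_poly R b (hco R b w8)
  let ι : R →+* k := (R.val : R →+* k)
  have hι : Function.Injective ι := Subtype.val_injective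
  have hιP : Function.Injective (Polynomial.map ι) := Polynomial.map_injective ι hι
  have hιS : Function.Injective (map ι) := PowerSeries.map_injective ι hι
  -- identities over `R`
  have e1 : B' * Q' + A1' = A' := by
    apply hιP
    rw [Polynomial.map_add, Polynomial.map_mul, hA', hB', hQ', hA1', hdiv]
  have e2 : a' * B' + b' * Polynomial.derivative B' = 1 := by
    apply hιP
    rw [Polynomial.map_add, Polynomial.map_mul, Polynomial.map_mul, ← Polynomial.derivative_map,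
      hB', ha', hb', hab, Polynomial.map_one]
  have e3 : (B' : R⟦X⟧) * (d⁄dX R g' * h' - d⁄dX R h' * g') = (A' : R⟦X⟧) * h' ^ 2 := by
    apply hιS
    rw [map_mul, map_sub, map_mul, map_mul, der_map', der_map', hg1, hh1, map_mul, map_pow, hh1,
      ← Polynomial.polynomial_map_coe, ← Polynomial.polynomial_map_coe, hA', hB', heq]
  -- specialisation
  have hunit : ∀ (x : k) (hx : x ∈ R), x ≠ 0 → x⁻¹ ∈ R → σ ⟨x, hx⟩ ≠ 0 := by
    intro x hx hx0 hxi h0
    have h1 : (⟨x, hx⟩ : R) * ⟨x⁻¹, hxi⟩ = 1 := Subtype.ext (mul_inv_cancel₀ hx0)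
    have h2 := congrArg σ h1
    rw [map_mul, h0, zero_mul, map_one] at h2
    exact zero_ne_one h2
  have hcB : ∀ (P : Polynomial k) (P' : Polynomial R), P'.map ι = P → P ≠ 0 →
      (P.leadingCoeff)⁻¹ ∈ R → (P'.map σ).coeff P.natDegree ≠ 0 := by
    intro P P' hP hP0 hPi
    rw [Polynomial.coeff_map]
    have e' : ((P'.coeff P.natDegree : R) : k) = P.leadingCoeff := by
      have := congrArg (fun q : Polynomial k => q.coeff P.natDegree) hP
      beta_reduce at this
      rw [Polynomial.coeff_map] at this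
      exact this
    have hmem : P.leadingCoeff ∈ R := by rw [← e']; exact (P'.coeff P.natDegree).2
    have e : P'.coeff P.natDegree = ⟨P.leadingCoeff, hmem⟩ := Subtype.ext e'
    rw [e]
    exact hunit _ _ (Polynomial.leadingCoeff_ne_zero.2 hP0) hPi
  have hh0' : map σ h' ≠ 0 := by
    intro h0
    have h1 := congrArg (coeff m) h0
    rw [coeff_map, map_zero] at h1
    have e' : ((coeff m h' : R) : k) = coeff m h := by
      rw [← hh1, coeff_map]; rfl
    have hmem : coeff m h ∈ R := by rw [← e']; exact (coeff m h').2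
    have e : coeff m h' = ⟨coeff m h, hmem⟩ := Subtype.ext e'
    rw [e] at h1
    exact hunit _ hmem hm (w9 (by simp)) h1
  have hd : B'.map σ ∣ A'.map σ := by
    refine nf_quot (hg2 K σ) (hh2 K σ) hh0' ⟨a'.map σ, b'.map σ, ?_⟩ ?_
    · rw [Polynomial.derivative_map, ← Polynomial.map_mul, ← Polynomial.map_mul,
        ← Polynomial.map_add, e2, Polynomial.map_one]
    · rw [← der_map', ← der_map', ← map_mul, ← map_mul, ← map_sub, Polynomial.polynomial_map_coe,
        ← map_mul, e3, map_mul, map_pow, Polynomial.polynomial_map_coe]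
  have hd1 : B'.map σ ∣ A1'.map σ := by
    have e4 : B'.map σ * Q'.map σ + A1'.map σ = A'.map σ := by
      rw [← e1, Polynomial.map_add, Polynomial.map_mul]
    rw [← e4] at hd
    exact (dvd_add_right (dvd_mul_right _ _)).1 hd
  have hlB := hcB B B' hB' hB0 (w9 (by simp))
  have hlA := hcB A1 A1' hA1' hA10 (w9 (by simp))
  have hA1ne : A1'.map σ ≠ 0 := by
    intro h0; rw [h0, Polynomial.coeff_zero] at hlA; exact hlA rfl
  have hA1d : (A1'.map σ).natDegree ≤ A1.natDegree := by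
    rw [← hA1', Polynomial.natDegree_map_eq_of_injective hι]
    exact Polynomial.natDegree_map_le
  have h5 := Polynomial.natDegree_le_of_dvd hd1 hA1ne
  have h6 : B.natDegree ≤ (B'.map σ).natDegree := Polynomial.le_natDegree_of_ne_zero hlB
  have h7 : A1.natDegree < B.natDegree := Polynomial.natDegree_lt_natDegree hA10 hdeg
  omega

end Run7.h131.PP
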