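import Mathlib

/-!
# Primitive steps

`R ⊆ F` are differential subfields of `Ω`, `F` algebraically closed in `Ω`, and every element of `F`
whose derivative is in `R` is in `R`.  The same is true for `R(θ)` and the algebraic closure of
`F(θ)` in `Ω`, if `θ' ∈ R`.
-/

set_option autoImplicit false
open Polynomial

namespace Run7.h131.PP

variable {Ω : Type*} [Field Ω] [CharZero Ω]

section basic

variable (D : Derivation ℤ Ω Ω)

/-- a differential subfield containing all constants -/
structure DF (k : Subfield Ω) : Prop where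
  stable : ∀ x ∈ k, D x ∈ k
  const : ∀ x, D x = 0 → x ∈ k

variable {D} {k : Subfield Ω}

/-- the derivation applied to the coefficients -/
noncomputable def dco (hk : DF D k) (A : k[X]) : k[X] :=
  ∑ i ∈ A.support, monomial i ⟨D (A.coeff i), hk.stable _ (A.coeff i).2⟩

lemma coeff_dco (hk : DF D k) (A : k[X]) (i : ℕ) :
    ((dco hk A).coeff i : Ω) = D (A.coeff i) := by
  unfold dco
  rw [finset_sum_coeff]
  simp only [coeff_monomial]
  rw [Finset.sum_ite_eq' A.support i]
  split_ifs with h
  · rfl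
  · rw [notMem_support_iff.1 h]
    simp

lemma aeval_dco (hk : DF D k) (A : k[X]) (θ : Ω) :
    D (aeval θ A) = aeval θ (dco hk A) + D θ * aeval θ (derivative A) := by
  have h1 : ∀ (B : k[X]) (N : ℕ), B.natDegree < N →
      aeval θ B = ∑ i ∈ Finset.range N, (B.coeff i : Ω) * θ ^ i := by
    intro B N hN
    rw [aeval_eq_sum_range' hN]
    rfl
  set N := A.natDegree + 1 with hN
  have hd : (dco hk A).natDegree < N := by
    rw [hN, Nat.lt_succ_iff, natDegree_le_iff_coeff_eq_zero]
    intro i hi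
    apply Subtype.ext
    rw [coeff_dco, coeff_eq_zero_of_natDegree_lt hi]
    simp
  have hd' : (derivative A).natDegree < N := by
    have := natDegree_derivative_le A
    omega
  rw [h1 A (N + 1) (by omega), h1 _ N hd, h1 _ N hd', map_sum, Finset.mul_sum]
  have h2 : ∀ i, D ((A.coeff i : Ω) * θ ^ i) = D (A.coeff i) * θ ^ i +
      D θ * ((i : Ω) * (A.coeff i : Ω) * θ ^ (i - 1)) := by
    intro i
    rw [Derivation.leibniz, Derivation.leibniz_pow]
    simp only [smul_eq_mul, nsmul_eq_mul]
    ring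
  simp only [h2]
  rw [Finset.sum_add_distrib]
  congr 1
  · rw [Finset.sum_range_succ, coeff_eq_zero_of_natDegree_lt (p := A) (n := N) (by omega)]
    simp [coeff_dco]
  · rw [Finset.sum_range_succ']
    simp only [Nat.cast_zero, zero_mul, mul_zero, add_zero]
    refine Finset.sum_congr rfl fun i _ => ?_
    rw [coeff_derivative]
    push_cast
    ring

/-- algebraic primitives -/
theorem prim_alg (hk : DF D k) {y : Ω} (hy : IsAlgebraic k y) (hD : D y ∈ k) : y ∈ k := by
  have hint : IsIntegral k y := hy.isIntegral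
  set P := minpoly k y with hP
  have hmon : P.Monic := minpoly.monic hint
  have hd : 0 < P.natDegree := minpoly.natDegree_pos hint
  let Q : k[X] := dco hk P + C ⟨D y, hD⟩ * derivative P
  have hQ : aeval y Q = 0 := by
    have h1 := aeval_dco hk P y
    rw [minpoly.aeval, map_zero] at h1
    simp only [Q]
    rw [map_add, map_mul, aeval_C]
    exact h1.symm
  have hQd : Q.natDegree < P.natDegree := by
    rw [Nat.lt_iff_le_pred hd]
    rw [natDegree_le_iff_coeff_eq_zero]
    intro i hi
    apply Subtype.ext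
    simp only [Q]
    rw [coeff_add, coeff_C_mul, coeff_derivative]
    push_cast
    rw [coeff_dco]
    have h1 : P.coeff (i + 1) = 0 := coeff_eq_zero_of_natDegree_lt (by omega)
    rw [h1]
    rcases Nat.lt_or_ge P.natDegree i with h2 | h2
    · rw [coeff_eq_zero_of_natDegree_lt h2]; simp
    · have h3 : i = P.natDegree := by omega
      rw [h3, hmon.coeff_natDegree]
      simp
  have hQ0 : Q = 0 := by
    by_contra hne
    have h1 := minpoly.degree_le_of_ne_zero k y hne hQ
    rw [← hP, degree_eq_natDegree hmon.ne_zero, degree_eq_natDegree hne] at h1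
    have : P.natDegree ≤ Q.natDegree := by exact_mod_cast h1
    omega
  have hc := congrArg (fun R : k[X] => ((R.coeff (P.natDegree - 1) : k) : Ω)) hQ0
  simp only [Q] at hc
  rw [coeff_add, coeff_C_mul, coeff_derivative] at hc
  push_cast at hc
  rw [coeff_dco, Nat.sub_add_cancel hd, hmon.coeff_natDegree] at hc
  have hn : (P.natDegree : Ω) ≠ 0 := by exact_mod_cast hd.ne'
  have hn' : (((P.natDegree - 1 : ℕ) : Ω) + 1) = (P.natDegree : Ω) := by
    have : ((P.natDegree - 1 : ℕ) : Ω) + 1 = ((P.natDegree - 1 + 1 : ℕ) : Ω) := by push_cast; ring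
    rw [this, Nat.sub_add_cancel hd]
  rw [hn'] at hc
  simp only [coeff_zero, ZeroMemClass.coe_zero, one_mul, OneMemClass.coe_one] at hc
  have h0 : D (y + (P.coeff (P.natDegree - 1) : Ω) * ((P.natDegree : Ω))⁻¹) = 0 := by
    have hDn : D (((P.natDegree : Ω))⁻¹) = 0 := by
      rw [Derivation.leibniz_inv, Derivation.map_natCast]; simp
    rw [map_add, Derivation.leibniz, hDn, smul_zero, zero_add, smul_eq_mul]
    field_simp
    linear_combination hc
  have h1 := hk.const _ h0
  have h2 : (P.coeff (P.natDegree - 1) : Ω) * ((P.natDegree : Ω))⁻¹ ∈ k :=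
    mul_mem (P.coeff _).2 (inv_mem (natCast_mem k _))
  have h3 := sub_mem h1 h2
  rwa [add_sub_cancel_right] at h3

end basic

section simple

variable {D : Derivation ℤ Ω Ω} {k : Subfield Ω}

/-- the total derivative on polynomials in `θ`, where `h = θ'` -/
noncomputable def Dp (hk : DF D k) (h : k) (A : k[X]) : k[X] := dco hk A + C h * derivative A

lemma aeval_Dp (hk : DF D k) {h : k} {θ : Ω} (hθ : D θ = h) (A : k[X]) :
    D (aeval θ A) = aeval θ (Dp hk h A) := by
  rw [aeval_dco hk, Dp, map_add, map_mul, aeval_C, hθ]; rfl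

lemma coeff_Dp (hk : DF D k) (h : k) (A : k[X]) (i : ℕ) :
    ((Dp hk h A).coeff i : Ω) = D (A.coeff i) + h * (A.coeff (i + 1) * (i + 1)) := by
  rw [Dp, coeff_add, coeff_C_mul, coeff_derivative]
  push_cast
  rw [coeff_dco]

lemma Dp_lt (hk : DF D k) (h : k) {B : k[X]} (hB : B.Monic) (hd : 0 < B.natDegree) :
    (Dp hk h B).natDegree < B.natDegree := by
  rw [Nat.lt_iff_le_pred hd, natDegree_le_iff_coeff_eq_zero]
  intro i hi
  apply Subtype.ext
  rw [coeff_Dp, coeff_eq_zero_of_natDegree_lt (p := B) (n := i + 1) (by omega)]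
  rcases Nat.lt_or_ge B.natDegree i with h2 | h2
  · rw [coeff_eq_zero_of_natDegree_lt h2]; simp
  · have h3 : i = B.natDegree := by omega
    rw [h3, hB.coeff_natDegree]
    simp

lemma Dp_ne (hk : DF D k) {h : k} {θ : Ω} (hθ : D θ = h) (hθk : θ ∉ k) {B : k[X]}
    (hB : B.Monic) (hd : 0 < B.natDegree) : Dp hk h B ≠ 0 := by
  intro h0
  apply hθk
  have hc := congrArg (fun R : k[X] => ((R.coeff (B.natDegree - 1) : k) : Ω)) h0
  beta_reduce at hc
  rw [coeff_Dp, Nat.sub_add_cancel hd, hB.coeff_natDegree] at hc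
  have hn : (B.natDegree : Ω) ≠ 0 := by exact_mod_cast hd.ne'
  have hn' : (((B.natDegree - 1 : ℕ) : Ω) + 1) = (B.natDegree : Ω) := by
    have : ((B.natDegree - 1 : ℕ) : Ω) + 1 = ((B.natDegree - 1 + 1 : ℕ) : Ω) := by push_cast; ring
    rw [this, Nat.sub_add_cancel hd]
  rw [hn'] at hc
  simp only [coeff_zero, ZeroMemClass.coe_zero, one_mul, OneMemClass.coe_one] at hc
  have h0 : D (θ + (B.coeff (B.natDegree - 1) : Ω) * ((B.natDegree : Ω))⁻¹) = 0 := by
    have hDn : D (((B.natDegree : Ω))⁻¹) = 0 := by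
      rw [Derivation.leibniz_inv, Derivation.map_natCast]; simp
    rw [map_add, Derivation.leibniz, hDn, smul_zero, zero_add, smul_eq_mul, hθ]
    field_simp
    linear_combination hc
  have h1 := hk.const _ h0
  have h2 : (B.coeff (B.natDegree - 1) : Ω) * ((B.natDegree : Ω))⁻¹ ∈ k :=
    mul_mem (B.coeff _).2 (inv_mem (natCast_mem k _))
  have h3 := sub_mem h1 h2
  rwa [add_sub_cancel_right] at h3

/-- differential simplicity of `k[θ]` -/
theorem dsimple (hk : DF D k) {h : k} {θ : Ω} (hθ : D θ = h) (hθk : θ ∉ k) (I : Ideal k[X])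
    (hI : ∀ A ∈ I, Dp hk h A ∈ I) (hne : I ≠ ⊥) : (1 : k[X]) ∈ I := by
  classical
  obtain ⟨A, hA, hA0⟩ := Submodule.exists_mem_ne_zero_of_ne_bot hne
  have hex : ∃ n, ∃ B ∈ I, B ≠ 0 ∧ B.natDegree = n := ⟨_, A, hA, hA0, rfl⟩
  obtain ⟨B, hB, hB0, hBn⟩ := Nat.find_spec hex
  have hmin : ∀ C ∈ I, C ≠ 0 → B.natDegree ≤ C.natDegree := by
    intro C hC hC0
    rw [hBn]
    exact Nat.find_min' hex ⟨C, hC, hC0, rfl⟩
  let B' := C (B.leadingCoeff)⁻¹ * B
  have hB' : B' ∈ I := I.mul_mem_left _ hB
  have hmon : B'.Monic := by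
    rw [Monic, leadingCoeff_mul, leadingCoeff_C, inv_mul_cancel₀ (leadingCoeff_ne_zero.2 hB0)]
  have hdeg : B'.natDegree = B.natDegree :=
    natDegree_C_mul (inv_ne_zero (leadingCoeff_ne_zero.2 hB0))
  rcases Nat.eq_zero_or_pos B'.natDegree with h0 | h0
  · have : B' = 1 := hmon.natDegree_eq_zero.1 h0
    rwa [this] at hB'
  · exfalso
    have h1 := hmin _ (hI _ hB') (Dp_ne hk hθ hθk hmon h0)
    have h2 := Dp_lt hk h hmon h0
    omega

end simple

section ext

variable {D : Derivation ℤ Ω Ω}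

/-- `k(θ)` -/
noncomputable def adj (k : Subfield Ω) (θ : Ω) : Subfield Ω :=
  (IntermediateField.adjoin k ({θ} : Set Ω)).toSubfield

/-- the algebraic closure of `k` in `Ω` -/
noncomputable def algc (k : Subfield Ω) : Subfield Ω := (algebraicClosure k Ω).toSubfield

lemma mem_adj {k : Subfield Ω} {θ x : Ω} :
    x ∈ adj k θ ↔ ∃ r s : k[X], x = aeval θ r / aeval θ s :=
  IntermediateField.mem_adjoin_simple_iff k x

lemma mem_algc {k : Subfield Ω} {x : Ω} : x ∈ algc k ↔ IsAlgebraic k x :=
  mem_algebraicClosure_iff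

lemma le_adj (k : Subfield Ω) (θ : Ω) : k ≤ adj k θ := fun x hx =>
  (IntermediateField.adjoin k ({θ} : Set Ω)).algebraMap_mem ⟨x, hx⟩

lemma self_mem_adj (k : Subfield Ω) (θ : Ω) : θ ∈ adj k θ :=
  IntermediateField.mem_adjoin_simple_self k θ

lemma le_algc (k : Subfield Ω) : k ≤ algc k := fun x hx =>
  (algebraicClosure k Ω).algebraMap_mem ⟨x, hx⟩

lemma aeval_mem_adj {k : Subfield Ω} (θ : Ω) (A : k[X]) : aeval θ A ∈ adj k θ :=
  mem_adj.2 ⟨A, 1, by simp⟩

lemma algc_algc {k : Subfield Ω} {x : Ω} (hx : IsAlgebraic (algc k) x) : x ∈ algc k := by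
  rw [mem_algc]
  haveI : Algebra.IsAlgebraic k (algebraicClosure k Ω) := inferInstance
  have hx' : IsAlgebraic (algebraicClosure k Ω) x := hx
  exact hx'.restrictScalars k

lemma DF.toAdj {k : Subfield Ω} (hk : DF D k) {θ : Ω} (hθ : D θ ∈ k) : DF D (adj k θ) where
  stable := by
    intro x hx
    obtain ⟨r, s, rfl⟩ := mem_adj.1 hx
    rw [Derivation.leibniz_div]
    have hθ' : D θ = ((⟨D θ, hθ⟩ : k) : Ω) := rfl
    rw [aeval_Dp hk hθ', aeval_Dp hk hθ']
    simp only [smul_eq_mul]
    have hm := fun A : k[X] => aeval_mem_adj θ A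
    exact mul_mem (pow_mem (inv_mem (hm _)) _) (sub_mem (mul_mem (hm _) (hm _))
      (mul_mem (hm _) (hm _)))
  const := fun x hx => le_adj k θ (hk.const x hx)

lemma DF.toAlgc {k : Subfield Ω} (hk : DF D k) : DF D (algc k) where
  stable := by
    intro x hx
    have hx' := mem_algc.1 hx
    have hint : IsIntegral k x := hx'.isIntegral
    have h1 := aeval_dco hk (minpoly k x) x
    rw [minpoly.aeval, map_zero] at h1
    have h2 : aeval x (derivative (minpoly k x)) ≠ 0 :=
      (minpoly.irreducible hint).separable.aeval_derivative_ne_zero (minpoly.aeval k x)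
    have h3 : D x = -aeval x (dco hk (minpoly k x)) / aeval x (derivative (minpoly k x)) := by
      rw [eq_div_iff h2]; linear_combination -h1
    have hm : ∀ A : k[X], aeval x A ∈ algc k := by
      intro A
      rw [aeval_eq_sum_range]
      refine sum_mem fun i _ => ?_
      rw [Algebra.smul_def]
      exact mul_mem (le_algc k (A.coeff i).2) (pow_mem hx i)
    rw [h3]
    exact div_mem (neg_mem (hm _)) (hm _)
  const := fun x hx => le_algc k (hk.const x hx)

end ext

section step

variable {D : Derivation ℤ Ω Ω} {R F : Subfield Ω} {θ : Ω}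

/-- the inclusion of polynomials -/
noncomputable def inc (hRF : R ≤ F) (A : R[X]) : F[X] := A.map (Subfield.inclusion hRF)

lemma aeval_inc (hRF : R ≤ F) (A : R[X]) (θ : Ω) : aeval θ (inc hRF A) = aeval θ A := by
  unfold inc
  rw [aeval_def, eval₂_map, aeval_def]
  rfl

lemma coeff_inc (hRF : R ≤ F) (A : R[X]) (i : ℕ) : ((inc hRF A).coeff i : Ω) = A.coeff i := by
  unfold inc
  rw [coeff_map]; rfl

/-- polynomials over `F` with values in `R(θ)` -/
lemma coeff_mem (hRF : R ≤ F) (htr : Transcendental F θ) :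
    ∀ (n : ℕ) (A : F[X]), A.natDegree < n → aeval θ A ∈ adj R θ → ∀ i, (A.coeff i : Ω) ∈ R := by
  have hinj : ∀ A : F[X], aeval θ A = 0 → A = 0 := by
    intro A hA
    by_contra hne
    exact htr ⟨A, hne, hA⟩
  intro n
  induction n with
  | zero => intro A hA; omega
  | succ n ih =>
    intro A hAn hA
    by_cases hA0 : A = 0
    · intro i; rw [hA0]; simp
    obtain ⟨r, s, hrs⟩ := mem_adj.1 hA
    have hAθ : aeval θ A ≠ 0 := fun h => hA0 (hinj A h)
    have hs : aeval θ s ≠ 0 := by
      intro h; rw [h, div_zero] at hrs; exact hAθ hrs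
    rw [eq_div_iff hs] at hrs
    have h1 : A * inc hRF s = inc hRF r := by
      rw [← sub_eq_zero]
      apply hinj
      rw [map_sub, map_mul, aeval_inc, aeval_inc, hrs, sub_self]
    have hlead : (A.leadingCoeff : Ω) ∈ R := by
      have h2 := congrArg (fun B : F[X] => ((B.leadingCoeff : F) : Ω)) h1
      simp only [leadingCoeff_mul] at h2
      push_cast at h2
      have hs0 : s ≠ 0 := by rintro rfl; simp at hs
      have h3 : ((inc hRF s).leadingCoeff : Ω) = (s.leadingCoeff : Ω) := by
        unfold inc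
        rw [leadingCoeff_map]; rfl
      have h4 : ((inc hRF r).leadingCoeff : Ω) = (r.leadingCoeff : Ω) := by
        unfold inc
        rw [leadingCoeff_map]; rfl
      rw [h3, h4] at h2
      have h5 : (s.leadingCoeff : Ω) ≠ 0 := by
        have := leadingCoeff_ne_zero.2 hs0
        exact_mod_cast this
      have h6 : (A.leadingCoeff : Ω) = r.leadingCoeff / s.leadingCoeff := by
        rw [eq_div_iff h5]; exact h2
      rw [h6]
      exact div_mem r.leadingCoeff.2 s.leadingCoeff.2
    rcases Nat.eq_zero_or_pos A.natDegree with hd | hd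
    · intro i
      rcases Nat.eq_zero_or_pos i with rfl | hi
      · rw [leadingCoeff, hd] at hlead
        exact hlead
      · rw [coeff_eq_zero_of_natDegree_lt (by omega)]; simp
    have hlt : A.eraseLead.natDegree < n := by
      have := eraseLead_natDegree_lt_or_eraseLead_eq_zero A
      rcases this with h | h
      · omega
      · rw [h, natDegree_zero]; omega
    have hE : aeval θ A.eraseLead ∈ adj R θ := by
      have e : aeval θ A.eraseLead = aeval θ A - (A.leadingCoeff : Ω) * θ ^ A.natDegree := by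
        have e' : aeval θ A = aeval θ A.eraseLead + (A.leadingCoeff : Ω) * θ ^ A.natDegree := by
          conv_lhs => rw [← A.eraseLead_add_C_mul_X_pow]
          rw [map_add, map_mul, aeval_C, map_pow, aeval_X]
          rfl
        rw [e']; ring
      rw [e]
      exact sub_mem hA (mul_mem (le_adj R θ hlead) (pow_mem (self_mem_adj R θ) _))
    intro i
    by_cases hi : i = A.natDegree
    · rw [hi]; exact hlead
    · have := ih _ hlt hE i
      rwa [eraseLead_coeff_of_ne _ hi] at this

/-- **The primitive step.** -/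
theorem step (hR : DF D R) (hF : DF D F) (hRF : R ≤ F) (hprim : ∀ y ∈ F, D y ∈ R → y ∈ R)
    (hθ : D θ ∈ R) (hθF : θ ∉ F) : ∀ y ∈ algc (adj F θ), D y ∈ adj R θ → y ∈ adj R θ := by
  intro y hy hDy
  have hθF' : D θ ∈ F := hRF hθ
  have htr : Transcendental F θ := fun h => hθF (prim_alg hF h hθF')
  have hinj : ∀ A : F[X], aeval θ A = 0 → A = 0 := by
    intro A hA
    by_contra hne
    exact htr ⟨A, hne, hA⟩
  have hθR : θ ∉ R := fun h => hθF (hRF h)
  have hRadj := hR.toAdj hθ
  have hFadj := hF.toAdj hθF'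
  have hle : adj R θ ≤ adj F θ := by
    intro x hx
    obtain ⟨r, s, rfl⟩ := mem_adj.1 hx
    rw [← aeval_inc hRF, ← aeval_inc hRF]
    exact mem_adj.2 ⟨_, _, rfl⟩
  let hR' : R := ⟨D θ, hθ⟩
  let hF' : F := ⟨D θ, hθF'⟩
  -- the trace argument
  have hy1 : y ∈ adj F θ := prim_alg hFadj (mem_algc.1 hy) (hle hDy)
  -- the ring `F · R(θ)`
  let T : Set Ω := {x | ∃ M : R[X], M ≠ 0 ∧ ∃ A : F[X], aeval θ M * x = aeval θ A}
  have hMne : ∀ M : R[X], M ≠ 0 → aeval θ M ≠ 0 := by
    intro M hM h
    rw [← aeval_inc hRF] at h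
    apply hM
    have h1 := hinj _ h
    unfold inc at h1
    exact (Polynomial.map_eq_zero_iff (Subfield.inclusion hRF).injective).1 h1
  have hTadd : ∀ a ∈ T, ∀ b ∈ T, a + b ∈ T := by
    rintro a ⟨M, hM, A, hA⟩ b ⟨M', hM', A', hA'⟩
    refine ⟨M * M', mul_ne_zero hM hM', A * inc hRF M' + A' * inc hRF M, ?_⟩
    rw [map_mul, map_add, map_mul, map_mul, aeval_inc, aeval_inc, ← hA, ← hA']
    ring
  have hTmul : ∀ a ∈ T, ∀ b ∈ T, a * b ∈ T := by
    rintro a ⟨M, hM, A, hA⟩ b ⟨M', hM', A', hA'⟩
    refine ⟨M * M', mul_ne_zero hM hM', A * A', ?_⟩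
    rw [map_mul, map_mul, ← hA, ← hA']
    ring
  have hTF : ∀ A : F[X], aeval θ A ∈ T := fun A => ⟨1, one_ne_zero, A, by rw [map_one, one_mul]⟩
  have hTneg : ∀ a ∈ T, -a ∈ T := by
    rintro a ⟨M, hM, A, hA⟩
    exact ⟨M, hM, -A, by rw [map_neg, ← hA]; ring⟩
  have hTR : ∀ x ∈ adj R θ, x ∈ T := by
    intro x hx
    obtain ⟨r, s, rfl⟩ := mem_adj.1 hx
    by_cases hs : s = 0
    · rw [hs, map_zero, div_zero]
      exact ⟨1, one_ne_zero, 0, by simp⟩
    · refine ⟨s, hs, inc hRF r, ?_⟩
      rw [aeval_inc, mul_div_cancel₀ _ (hMne s hs)]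
  have hTD : ∀ a ∈ T, D a ∈ T := by
    rintro a ⟨M, hM, A, hA⟩
    have h1 := congrArg D hA
    rw [Derivation.leibniz, smul_eq_mul, smul_eq_mul, aeval_Dp hR (h := hR') rfl,
      aeval_Dp hF (h := hF') rfl] at h1
    refine ⟨M * M, mul_ne_zero hM hM, inc hRF M * Dp hF hF' A - A * inc hRF (Dp hR hR' M), ?_⟩
    rw [map_mul, map_sub, map_mul, map_mul, aeval_inc, aeval_inc, ← hA]
    linear_combination aeval θ M * h1
  have hyT : y ∈ T := by
    obtain ⟨A, B, hAB⟩ := mem_adj.1 hy1
    by_cases hB : B = 0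
    · rw [hAB, hB, map_zero, div_zero]
      exact ⟨1, one_ne_zero, 0, by simp⟩
    have hBθ : aeval θ B ≠ 0 := fun h => hB (hinj B h)
    let I : Ideal F[X] :=
      { carrier := {C | aeval θ C * y ∈ T}
        add_mem' := fun {a b} ha hb => by
          change aeval θ (a + b) * y ∈ T
          rw [map_add, add_mul]; exact hTadd _ ha _ hb
        zero_mem' := by
          change aeval θ (0 : F[X]) * y ∈ T
          rw [map_zero, zero_mul]
          exact ⟨1, one_ne_zero, 0, by simp⟩
        smul_mem' := fun c {a} ha => by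
          change aeval θ (c * a) * y ∈ T
          rw [map_mul, mul_assoc]; exact hTmul _ (hTF c) _ ha }
    have hI : ∀ C ∈ I, Dp hF hF' C ∈ I := by
      intro C hC
      have hC' : aeval θ C * y ∈ T := hC
      change aeval θ (Dp hF hF' C) * y ∈ T
      have h1 : aeval θ (Dp hF hF' C) * y = D (aeval θ C * y) + -(aeval θ C * D y) := by
        rw [← aeval_Dp hF (h := hF') rfl, Derivation.leibniz]
        simp only [smul_eq_mul]; ring
      rw [h1]
      exact hTadd _ (hTD _ hC') _ (hTneg _ (hTmul _ (hTF C) _ (hTR _ hDy)))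
    have hBI : B ∈ I := by
      change aeval θ B * y ∈ T
      rw [hAB, mul_div_cancel₀ _ hBθ]
      exact hTF A
    have h1 := dsimple hF (h := hF') rfl hθF I hI (fun h => hB (by
      rw [h] at hBI; exact (Submodule.mem_bot _).1 hBI))
    have h2 : aeval θ (1 : F[X]) * y ∈ T := h1
    rwa [map_one, one_mul] at h2
  -- the group `F[θ] + R(θ)`
  let T0 : Set Ω := {x | ∃ A : F[X], ∃ r ∈ adj R θ, x = aeval θ A + r}
  have hT0add : ∀ a ∈ T0, ∀ b ∈ T0, a + b ∈ T0 := by
    rintro a ⟨A, r, hr, rfl⟩ b ⟨A', r', hr', rfl⟩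
    exact ⟨A + A', r + r', add_mem hr hr', by rw [map_add]; ring⟩
  have hT0R : ∀ a ∈ T0, ∀ M : R[X], aeval θ M * a ∈ T0 := by
    rintro a ⟨A, r, hr, rfl⟩ M
    exact ⟨inc hRF M * A, aeval θ M * r, mul_mem (aeval_mem_adj θ M) hr, by
      rw [map_mul, aeval_inc]; ring⟩
  have hT0D : ∀ a ∈ T0, D a ∈ T0 := by
    rintro a ⟨A, r, hr, rfl⟩
    exact ⟨Dp hF hF' A, D r, hRadj.stable r hr, by rw [map_add, aeval_Dp hF (h := hF') rfl]⟩
  have hyT0 : y ∈ T0 := by
    obtain ⟨M, hM, A, hA⟩ := hyT
    let J : Ideal R[X] :=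
      { carrier := {C | aeval θ C * y ∈ T0}
        add_mem' := fun {a b} ha hb => by
          change aeval θ (a + b) * y ∈ T0
          rw [map_add, add_mul]; exact hT0add _ ha _ hb
        zero_mem' := by
          change aeval θ (0 : R[X]) * y ∈ T0
          rw [map_zero, zero_mul]
          exact ⟨0, 0, zero_mem _, by simp⟩
        smul_mem' := fun c {a} ha => by
          change aeval θ (c * a) * y ∈ T0
          rw [map_mul, mul_assoc]; exact hT0R _ ha c }
    have hJ : ∀ C ∈ J, Dp hR hR' C ∈ J := by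
      intro C hC
      have hC' : aeval θ C * y ∈ T0 := hC
      change aeval θ (Dp hR hR' C) * y ∈ T0
      have h1 : aeval θ (Dp hR hR' C) * y = D (aeval θ C * y) + -(aeval θ C * D y) := by
        rw [← aeval_Dp hR (h := hR') rfl, Derivation.leibniz]
        simp only [smul_eq_mul]; ring
      rw [h1]
      refine hT0add _ (hT0D _ hC') _ ⟨0, _, neg_mem (mul_mem (aeval_mem_adj θ C) hDy), ?_⟩
      rw [map_zero, zero_add]
    have hMJ : M ∈ J := by
      change aeval θ M * y ∈ T0
      exact ⟨A, 0, zero_mem _, by rw [hA, add_zero]⟩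
    have h1 := dsimple hR (h := hR') rfl hθR J hJ (fun h => hM (by
      rw [h] at hMJ; exact (Submodule.mem_bot _).1 hMJ))
    have h2 : aeval θ (1 : R[X]) * y ∈ T0 := h1
    rwa [map_one, one_mul] at h2
  -- polynomials
  have hpoly : ∀ (n : ℕ) (A : F[X]), A.natDegree < n → D (aeval θ A) ∈ adj R θ →
      aeval θ A ∈ adj R θ := by
    intro n
    induction n with
    | zero => intro A hA; omega
    | succ n ih =>
      intro A hAn hA
      by_cases hA0 : A = 0
      · rw [hA0, map_zero]; exact zero_mem _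
      have h1 : ∀ i, ((Dp hF hF' A).coeff i : Ω) ∈ R := by
        refine coeff_mem hRF htr _ _ (Nat.lt_succ_self _) ?_
        rw [← aeval_Dp hF (h := hF') rfl]; exact hA
      have h2 := h1 A.natDegree
      rw [coeff_Dp, coeff_eq_zero_of_natDegree_lt (p := A) (Nat.lt_succ_self _)] at h2
      simp only [ZeroMemClass.coe_zero, zero_mul, mul_zero, add_zero] at h2
      have hlead : (A.leadingCoeff : Ω) ∈ R := hprim _ A.leadingCoeff.2 h2
      have e : aeval θ A = aeval θ A.eraseLead + (A.leadingCoeff : Ω) * θ ^ A.natDegree := by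
        conv_lhs => rw [← A.eraseLead_add_C_mul_X_pow]
        rw [map_add, map_mul, aeval_C, map_pow, aeval_X]
        rfl
      have hm : (A.leadingCoeff : Ω) * θ ^ A.natDegree ∈ adj R θ :=
        mul_mem (le_adj R θ hlead) (pow_mem (self_mem_adj R θ) _)
      rcases Nat.eq_zero_or_pos A.natDegree with hd | hd
      · have h3 : A.eraseLead = 0 := by
          rcases eraseLead_natDegree_lt_or_eraseLead_eq_zero A with h | h
          · omega
          · exact h
        rw [e, h3, map_zero, zero_add]; exact hm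
      · rw [e]
        refine add_mem (ih _ ?_ ?_) hm
        · rcases eraseLead_natDegree_lt_or_eraseLead_eq_zero A with h | h
          · omega
          · rw [h, natDegree_zero]; omega
        · have e2 : D (aeval θ A.eraseLead) = D (aeval θ A) -
              D ((A.leadingCoeff : Ω) * θ ^ A.natDegree) := by
            rw [e, map_add]; ring
          rw [e2]
          exact sub_mem hA (hRadj.stable _ hm)
  obtain ⟨A, r, hr, hyA⟩ := hyT0
  rw [hyA]
  refine add_mem (hpoly _ A (Nat.lt_succ_self _) ?_) hr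
  have e : D (aeval θ A) = D y - D r := by rw [hyA, map_add]; ring
  rw [e]
  exact sub_mem hDy (hRadj.stable _ hr)

end step

end Run7.h131.PP
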