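import Mathlib
import Pool.Agent.Run7.h131.PP.Step

/-!
# Towers of primitives
-/

set_option autoImplicit false
open Polynomial

namespace Run7.h131.PP

variable {Ω : Type*} [Field Ω] [CharZero Ω]

section exch

variable {R F : Subfield Ω}

lemma adj_mono {R F : Subfield Ω} (hRF : R ≤ F) (θ : Ω) : adj R θ ≤ adj F θ := by
  intro x hx
  obtain ⟨r, s, rfl⟩ := mem_adj.1 hx
  rw [← aeval_inc hRF, ← aeval_inc hRF]
  exact mem_adj.2 ⟨_, _, rfl⟩

/-- the exchange argument -/
theorem exch (hRF : R ≤ F) {θ f : Ω} (htr : Transcendental F θ) (hf : f ∈ F)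
    (h : IsAlgebraic (adj R θ) f) : IsAlgebraic R f := by
  classical
  obtain ⟨P, hP0, hP⟩ := h
  -- numerators and denominators
  have hc : ∀ i, ∃ r s : R[X], aeval θ s ≠ 0 ∧ aeval θ r = aeval θ s * (P.coeff i : Ω) := by
    intro i
    obtain ⟨r, s, hrs⟩ := mem_adj.1 (P.coeff i).2
    by_cases hs : aeval θ s = 0
    · refine ⟨0, 1, by simp, ?_⟩
      rw [hrs, hs, div_zero]; simp
    · exact ⟨r, s, hs, by rw [hrs]; field_simp⟩
  choose r s hs hrs using hc
  let N := P.natDegree + 1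
  let g : ℕ → R[X] := fun i => r i * ∏ j ∈ (Finset.range N).erase i, s j
  let q : Ω := ∏ j ∈ Finset.range N, aeval θ (s j)
  have hq : q ≠ 0 := Finset.prod_ne_zero_iff.2 fun j _ => hs j
  have hg : ∀ i ∈ Finset.range N, aeval θ (g i) = q * (P.coeff i : Ω) := by
    intro i hi
    simp only [g]
    rw [map_mul, hrs, map_prod]
    have : q = aeval θ (s i) * ∏ j ∈ (Finset.range N).erase i, aeval θ (s j) :=
      (Finset.mul_prod_erase _ _ hi).symm
    rw [this]; ring
  have hsum : ∑ i ∈ Finset.range N, aeval θ (g i) * f ^ i = 0 := by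
    rw [Finset.sum_congr rfl fun i hi => by rw [hg i hi]]
    have h1 : aeval f P = ∑ i ∈ Finset.range N, (P.coeff i : Ω) * f ^ i := by
      rw [aeval_eq_sum_range' (Nat.lt_succ_self _)]; rfl
    rw [hP] at h1
    simp only [mul_assoc]
    rw [← Finset.mul_sum, ← h1, mul_zero]
  -- as a polynomial over `F`
  let G : F[X] := ∑ i ∈ Finset.range N, inc hRF (g i) * C ((⟨f, hf⟩ : F) ^ i)
  have hG : aeval θ G = 0 := by
    simp only [G]
    rw [map_sum, ← hsum]
    refine Finset.sum_congr rfl fun i _ => ?_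
    rw [map_mul, aeval_inc, aeval_C]; rfl
  have hG0 : G = 0 := by
    by_contra hne
    exact htr ⟨G, hne, hG⟩
  -- a nonzero coefficient
  have hPd : (P.coeff P.natDegree : Ω) ≠ 0 := by
    have := leadingCoeff_ne_zero.2 hP0
    rw [leadingCoeff] at this
    exact_mod_cast this
  have hgd : g P.natDegree ≠ 0 := by
    intro h0
    have h1 := hg P.natDegree (Finset.self_mem_range_succ _)
    rw [h0, map_zero] at h1
    exact (mul_ne_zero hq hPd) h1.symm
  obtain ⟨m, hm⟩ : ∃ m, (g P.natDegree).coeff m ≠ 0 := by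
    by_contra hno
    push Not at hno
    exact hgd (Polynomial.ext fun m => by rw [hno m]; simp)
  refine ⟨∑ i ∈ Finset.range N, monomial i ((g i).coeff m), ?_, ?_⟩
  · intro h0
    apply hm
    have h1 := congrArg (fun Q : R[X] => Q.coeff P.natDegree) h0
    simp only [finset_sum_coeff, coeff_monomial, coeff_zero] at h1
    rw [Finset.sum_ite_eq' (Finset.range N) P.natDegree, if_pos (Finset.self_mem_range_succ _)] at h1
    exact h1
  · have h1 := congrArg (fun Q : F[X] => ((Q.coeff m : F) : Ω)) hG0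
    simp only [G, finset_sum_coeff, coeff_mul_C, coeff_zero] at h1
    rw [map_sum]
    push_cast at h1
    rw [← h1]
    refine Finset.sum_congr rfl fun i _ => ?_
    rw [aeval_monomial, coeff_inc]; rfl

end exch

section tower

variable {D : Derivation ℤ Ω Ω}

/-- the fields of the tower -/
noncomputable def Rt (R : Subfield Ω) (θ : ℕ → Ω) : ℕ → Subfield Ω
  | 0 => R
  | n + 1 => adj (Rt R θ n) (θ n)

lemma adj_le {k l : Subfield Ω} {θ : Ω} (hk : k ≤ l) (hθ : θ ∈ l) : adj k θ ≤ l := by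
  intro x hx
  obtain ⟨r, s, rfl⟩ := mem_adj.1 hx
  have hm : ∀ A : k[X], aeval θ A ∈ l := by
    intro A
    rw [aeval_eq_sum_range]
    refine sum_mem fun i _ => ?_
    rw [Algebra.smul_def]
    exact mul_mem (hk (A.coeff i).2) (pow_mem hθ i)
  exact div_mem (hm r) (hm s)

lemma adj_eq_self {k : Subfield Ω} {θ : Ω} (hθ : θ ∈ k) : adj k θ = k :=
  le_antisymm (adj_le le_rfl hθ) (le_adj k θ)

/-- **Towers of primitives over `R`.** -/
theorem towerA {R F : Subfield Ω} (hR : DF D R) (hF : DF D F) (hRF : R ≤ F)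
    (hprim : ∀ y ∈ F, D y ∈ R → y ∈ R) (θ : ℕ → Ω) (n : ℕ)
    (hθ : ∀ i < n, D (θ i) ∈ Rt R θ i) :
    ∃ F' : Subfield Ω, DF D (Rt R θ n) ∧ DF D F' ∧ Rt R θ n ≤ F' ∧ F ≤ F' ∧
      (∀ y ∈ F', D y ∈ Rt R θ n → y ∈ Rt R θ n) ∧
      ∀ f ∈ F, IsAlgebraic (Rt R θ n) f → IsAlgebraic R f := by
  induction n with
  | zero => exact ⟨F, hR, hF, hRF, le_rfl, hprim, fun f _ h => h⟩
  | succ n ih =>
    obtain ⟨F', h1, h2, h3, h4, h5, h6⟩ := ih fun i hi => hθ i (by omega)
    have hθn := hθ n (Nat.lt_succ_self n)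
    by_cases hmem : θ n ∈ F'
    · have h7 := h5 _ hmem hθn
      have h8 : Rt R θ (n + 1) = Rt R θ n := adj_eq_self h7
      rw [h8]
      exact ⟨F', h1, h2, h3, h4, h5, h6⟩
    · have htr : Transcendental F' (θ n) := fun h => hmem (prim_alg h2 h (h3 hθn))
      refine ⟨algc (adj F' (θ n)), h1.toAdj hθn, (h2.toAdj (h3 hθn)).toAlgc,
        (adj_mono h3 _).trans (le_algc _), h4.trans ((le_adj F' _).trans (le_algc _)),
        step h1 h2 h3 h5 hθn hmem, fun f hf h => h6 f hf (exch h3 htr (h4 hf) h)⟩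

end tower

end Run7.h131.PP
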