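import Mathlib
import Pool.Agent.Run7.h131.PP.SO
import Pool.Agent.Run7.h131.PP.TowA

/-!
# Hermite reduction: primitives of rational functions
-/

set_option autoImplicit false
open PowerSeries

namespace Run7.h131.PP

variable {k : Type*} [Field k] [CharZero k] {Ω : Type*} [Field Ω] [CharZero Ω]

/-- a differential field extension of `k⟦X⟧` without new constants -/
structure Emb (D : Derivation ℤ Ω Ω) (φ : k⟦X⟧ →+* Ω) : Prop where
  der : ∀ u, D (φ u) = φ (d⁄dX k u)
  const : ∀ x, D x = 0 → ∃ c : k, x = φ (C c)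

variable {D : Derivation ℤ Ω Ω} {φ : k⟦X⟧ →+* Ω}

lemma Emb.inj (hE : Emb D φ) : Function.Injective φ := by
  rw [injective_iff_map_eq_zero]
  intro u hu
  by_contra hne
  obtain ⟨m, w, hw, rfl⟩ := H497R2.order_split hne
  have hX : φ X ≠ 0 := by
    intro h0
    have h1 := hE.der X
    rw [h0, map_zero, derivative_X, map_one] at h1
    exact zero_ne_one h1
  have hwu : IsUnit (φ w) :=
    (PowerSeries.isUnit_iff_constantCoeff.2 (isUnit_iff_ne_zero.2 hw)).map φ
  rw [map_mul, map_pow] at hu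
  exact (mul_ne_zero (pow_ne_zero _ hX) hwu.ne_zero) hu

/-- quotients of elements of `SOr` -/
noncomputable def F0 (hE : Emb D φ) : Subfield Ω where
  carrier := {y | ∃ g h : k⟦X⟧, SO g ∧ SO h ∧ h ≠ 0 ∧ φ h * y = φ g}
  mul_mem' := by
    rintro a b ⟨g, h, h1, h2, h3, h4⟩ ⟨g', h', h1', h2', h3', h4'⟩
    exact ⟨g * g', h * h', h1.mul h1', h2.mul h2', mul_ne_zero h3 h3', by
      rw [map_mul, map_mul, ← h4, ← h4']; ring⟩
  one_mem' := ⟨1, 1, (SOr k).one_mem, (SOr k).one_mem, one_ne_zero, by simp⟩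
  add_mem' := by
    rintro a b ⟨g, h, h1, h2, h3, h4⟩ ⟨g', h', h1', h2', h3', h4'⟩
    exact ⟨g * h' + g' * h, h * h', (h1.mul h2').add (h1'.mul h2), h2.mul h2',
      mul_ne_zero h3 h3', by
        rw [map_add, map_mul, map_mul, map_mul, ← h4, ← h4']; ring⟩
  zero_mem' := ⟨0, 1, (SOr k).zero_mem, (SOr k).one_mem, one_ne_zero, by simp⟩
  neg_mem' := by
    rintro a ⟨g, h, h1, h2, h3, h4⟩
    exact ⟨-g, h, h1.neg, h2, h3, by rw [map_neg, ← h4]; ring⟩
  inv_mem' := by
    rintro a ⟨g, h, h1, h2, h3, h4⟩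
    by_cases ha : a = 0
    · exact ⟨0, 1, (SOr k).zero_mem, (SOr k).one_mem, one_ne_zero, by simp [ha]⟩
    · have hφ : φ h ≠ 0 := fun h0 => h3 (hE.inj (by rw [h0, map_zero]))
      refine ⟨h, g, h2, h1, ?_, ?_⟩
      · rintro rfl
        rw [map_zero] at h4
        exact (mul_ne_zero hφ ha) h4
      · rw [← h4]; field_simp

lemma SO.mem (hE : Emb D φ) {u : k⟦X⟧} (hu : SO u) : φ u ∈ F0 hE :=
  ⟨u, 1, hu, (SOr k).one_mem, one_ne_zero, by simp⟩

lemma F0_DF (hE : Emb D φ) : DF D (F0 hE) where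
  stable := by
    rintro y ⟨g, h, h1, h2, h3, h4⟩
    have hφ : φ h ≠ 0 := fun h0 => h3 (hE.inj (by rw [h0, map_zero]))
    refine ⟨d⁄dX k g * h - d⁄dX k h * g, h * h, ?_, h2.mul h2, mul_ne_zero h3 h3, ?_⟩
    · rw [sub_eq_add_neg]
      exact (h1.deriv.mul h2).add (h2.deriv.mul h1).neg
    · have h5 := congrArg D h4
      rw [Derivation.leibniz, hE.der, hE.der, smul_eq_mul, smul_eq_mul] at h5
      rw [map_sub, map_mul, map_mul, map_mul, ← h5, ← h4]
      ring
  const := by
    intro x hx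
    obtain ⟨c, rfl⟩ := hE.const x hx
    exact (SO_C c).mem hE

/-- the field of constants -/
noncomputable def Ck (φ : k⟦X⟧ →+* Ω) : Subfield Ω := (φ.comp (C : k →+* k⟦X⟧)).fieldRange

lemma Ck_DF (hE : Emb D φ) : DF D (Ck φ) where
  stable := by
    rintro _ ⟨c, rfl⟩
    rw [RingHom.comp_apply, hE.der, derivative_C, map_zero]
    exact zero_mem _
  const := by
    intro x hx
    obtain ⟨c, rfl⟩ := hE.const x hx
    exact ⟨c, rfl⟩

/-- the rational functions -/
noncomputable def R0 (φ : k⟦X⟧ →+* Ω) : Subfield Ω := adj (Ck φ) (φ X)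

lemma R0_DF (hE : Emb D φ) : DF D (R0 φ) :=
  (Ck_DF hE).toAdj (by rw [hE.der, derivative_X, map_one]; exact one_mem _)

/-- the constants -/
noncomputable def toCk (φ : k⟦X⟧ →+* Ω) : k →+* Ck φ :=
  (φ.comp (C : k →+* k⟦X⟧)).rangeRestrictField

omit [CharZero k] [CharZero Ω] in
lemma toCk_surj : Function.Surjective (toCk φ) := by
  rintro ⟨_, c, rfl⟩
  exact ⟨c, rfl⟩

omit [CharZero k] [CharZero Ω] in
lemma aeval_Ck (P : Polynomial k) :
    Polynomial.aeval (φ X) (P.map (toCk φ)) = φ (P : k⟦X⟧) := by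
  have h1 : (φ : k⟦X⟧ →+* Ω) (P : k⟦X⟧) = Polynomial.eval₂ (φ.comp (C : k →+* k⟦X⟧)) (φ X) P := by
    have h2 : (P : k⟦X⟧) = Polynomial.eval₂ (C : k →+* k⟦X⟧) X P := by
      rw [Polynomial.eval₂_C_X_eq_coe]
    rw [h2, Polynomial.hom_eval₂]
  rw [h1, Polynomial.aeval_def, Polynomial.eval₂_map]
  rfl

lemma poly_mem_R0 (P : Polynomial k) : φ (P : k⟦X⟧) ∈ R0 φ := by
  rw [← aeval_Ck]; exact aeval_mem_adj _ _

lemma R0_iff (hE : Emb D φ) {y : Ω} :
    y ∈ R0 φ ↔ ∃ P Q : Polynomial k, Q ≠ 0 ∧ φ (Q : k⟦X⟧) * y = φ (P : k⟦X⟧) := by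
  have hne : ∀ Q : Polynomial k, Q ≠ 0 → φ (Q : k⟦X⟧) ≠ 0 := by
    intro Q hQ h0
    apply hQ
    have h1 : (Q : k⟦X⟧) = 0 := hE.inj (by rw [h0, map_zero])
    exact Polynomial.coe_injective k (by rw [h1, Polynomial.coe_zero])
  constructor
  · intro hy
    obtain ⟨r, s, rfl⟩ := mem_adj.1 hy
    obtain ⟨P, rfl⟩ := Polynomial.map_surjective _ (toCk_surj (φ := φ)) r
    obtain ⟨Q, rfl⟩ := Polynomial.map_surjective _ (toCk_surj (φ := φ)) s
    rw [aeval_Ck, aeval_Ck]
    by_cases hQ : Q = 0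
    · exact ⟨0, 1, one_ne_zero, by rw [hQ]; simp⟩
    · exact ⟨P, Q, hQ, mul_div_cancel₀ _ (hne Q hQ)⟩
  · rintro ⟨P, Q, hQ, h⟩
    have : y = φ (P : k⟦X⟧) / φ (Q : k⟦X⟧) := by
      rw [eq_div_iff (hne Q hQ), ← h, mul_comm]
    rw [this]
    exact div_mem (poly_mem_R0 P) (poly_mem_R0 Q)

lemma poly_ne (hE : Emb D φ) {Q : Polynomial k} (hQ : Q ≠ 0) : φ (Q : k⟦X⟧) ≠ 0 := by
  intro h0
  apply hQ
  have h1 : (Q : k⟦X⟧) = 0 := hE.inj (by rw [h0, map_zero])
  exact Polynomial.coe_injective k (by rw [h1, Polynomial.coe_zero])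

omit [CharZero k] in
lemma D_poly (hE : Emb D φ) (P : Polynomial k) :
    D (φ (P : k⟦X⟧)) = φ ((Polynomial.derivative P : Polynomial k) : k⟦X⟧) := by
  rw [hE.der]
  congr 1
  exact derivative_coe P

lemma R0_le (hE : Emb D φ) : R0 φ ≤ F0 hE := by
  intro y hy
  obtain ⟨P, Q, hQ, h⟩ := (R0_iff hE).1 hy
  exact ⟨P, Q, SO_poly P, SO_poly Q, fun h0 => hQ (Polynomial.coe_injective k (by
    rw [h0, Polynomial.coe_zero])), h⟩

lemma exists_antider (Q : Polynomial k) : ∃ P : Polynomial k, Polynomial.derivative P = Q := by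
  induction Q using Polynomial.induction_on' with
  | add p q hp hq =>
    obtain ⟨a, ha⟩ := hp
    obtain ⟨b, hb⟩ := hq
    exact ⟨a + b, by rw [Polynomial.derivative_add, ha, hb]⟩
  | monomial n c =>
    refine ⟨Polynomial.monomial (n + 1) (c / ((n : k) + 1)), ?_⟩
    have h1 : ((n : k) + 1) ≠ 0 := by exact_mod_cast Nat.succ_ne_zero n
    rw [Polynomial.derivative_monomial, Nat.add_sub_cancel]
    congr 1
    push_cast
    field_simp

/-- the squarefree case -/
lemma prim_coprime (hE : Emb D φ) {A B : Polynomial k} (hB : IsCoprime B (Polynomial.derivative B))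
    {y : Ω} (hy : y ∈ F0 hE) (h : φ (B : k⟦X⟧) * D y = φ (A : k⟦X⟧)) : y ∈ R0 φ := by
  obtain ⟨g, w, hg, hw, hw0, hgw⟩ := hy
  have hB0 : B ≠ 0 := by
    rintro rfl
    rw [Polynomial.derivative_zero, isCoprime_zero_left] at hB
    exact not_isUnit_zero hB
  have hd : B ∣ A := by
    refine so_dvd hg hw hw0 hB ?_
    apply hE.inj
    have h5 := congrArg D hgw
    rw [Derivation.leibniz, hE.der, hE.der, smul_eq_mul, smul_eq_mul] at h5
    rw [map_mul, map_sub, map_mul, map_mul, map_mul, map_pow, ← h, ← h5, ← hgw]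
    ring
  obtain ⟨Q, rfl⟩ := hd
  obtain ⟨P, hP⟩ := exists_antider Q
  have h1 : D y = φ (Q : k⟦X⟧) := by
    rw [Polynomial.coe_mul, map_mul] at h
    exact mul_left_cancel₀ (poly_ne hE hB0) h
  have h2 : D (y - φ (P : k⟦X⟧)) = 0 := by
    rw [map_sub, h1, D_poly hE, hP, sub_self]
  have h3 := (R0_DF hE).const _ h2
  have h4 := add_mem h3 (poly_mem_R0 (φ := φ) P)
  rwa [sub_add_cancel] at h4

/-- **Primitives of rational functions.** -/
theorem prim0 (hE : Emb D φ) : ∀ y ∈ F0 hE, D y ∈ R0 φ → y ∈ R0 φ := by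
  have key : ∀ (n : ℕ) (B A : Polynomial k), B.natDegree < n → B ≠ 0 → ∀ y ∈ F0 hE,
      φ (B : k⟦X⟧) * D y = φ (A : k⟦X⟧) → y ∈ R0 φ := by
    intro n
    induction n with
    | zero => intro B A hn; omega
    | succ n ih =>
      intro B A hn hB0 y hy h
      by_cases hB : IsCoprime B (Polynomial.derivative B)
      · exact prim_coprime hE hB hy h
      have hns : ¬ Squarefree B := by
        intro hs
        exact hB ((PerfectField.separable_iff_squarefree).2 hs)
      rw [Squarefree] at hns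
      push Not at hns
      obtain ⟨x, hx, hxu⟩ := hns
      have hx0 : x ≠ 0 := by
        rintro rfl
        rw [zero_mul, zero_dvd_iff] at hx
        exact hB0 hx
      obtain ⟨q, hq, hqx⟩ := WfDvdMonoid.exists_irreducible_factor hxu hx0
      have hq2 : q ^ 2 ∣ B := by
        rw [pow_two]; exact (mul_dvd_mul hqx hqx).trans hx
      have hqd : 0 < q.natDegree := Polynomial.natDegree_pos_iff_degree_pos.2
        (Polynomial.degree_pos_of_irreducible hq)
      have hfin : FiniteMultiplicity q B :=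
        FiniteMultiplicity.of_not_isUnit hq.not_isUnit hB0
      obtain ⟨E, hE1, hE2⟩ := hfin.exists_eq_pow_mul_and_not_dvd
      have hm2 : 2 ≤ multiplicity q B := hfin.le_multiplicity_of_pow_dvd hq2
      obtain ⟨m, hm⟩ : ∃ m, multiplicity q B = m + 2 := ⟨multiplicity q B - 2, by omega⟩
      rw [hm] at hE1
      have hE0 : E ≠ 0 := by
        rintro rfl
        exact hE2 (dvd_zero _)
      have hcop : IsCoprime q (Polynomial.derivative q * E) :=
        (hq.separable).mul_right ((hq.coprime_iff_not_dvd).2 hE2)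
      obtain ⟨v, u, huv⟩ := hcop
      let U := A * u
      let V := A * v
      have hUV : A = U * (Polynomial.derivative q * E) + V * q := by
        simp only [U, V]
        linear_combination -A * huv
      have hm1 : ((m : k) + 1) ≠ 0 := by exact_mod_cast Nat.succ_ne_zero m
      let c : k := ((m : k) + 1)⁻¹
      have hφq := poly_ne hE hq.ne_zero
      have hφE := poly_ne hE hE0
      -- the corrected function
      let r : Ω := φ ((Polynomial.C c * U : Polynomial k) : k⟦X⟧) / φ (q : k⟦X⟧) ^ (m + 1)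
      have hr : r ∈ R0 φ := div_mem (poly_mem_R0 _) (pow_mem (poly_mem_R0 _) _)
      have hc : φ (C c : k⟦X⟧) * ((m : Ω) + 1) = 1 := by
        have e1 : ((m : Ω) + 1) = φ (C ((m : k) + 1) : k⟦X⟧) := by
          rw [map_add, map_natCast, map_one, map_add, map_natCast, map_one]
        rw [e1, ← map_mul, ← map_mul, inv_mul_cancel₀ hm1, map_one, map_one]
      have hDr : D r = (φ (C c : k⟦X⟧) * φ ((Polynomial.derivative U : Polynomial k) : k⟦X⟧) *
          φ (q : k⟦X⟧) - φ (U : k⟦X⟧) * φ ((Polynomial.derivative q : Polynomial k) : k⟦X⟧)) /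
            φ (q : k⟦X⟧) ^ (m + 2) := by
        simp only [r]
        rw [Derivation.leibniz_div, Derivation.leibniz_pow, D_poly hE, D_poly hE,
          Polynomial.derivative_C_mul, Nat.add_sub_cancel]
        simp only [smul_eq_mul, nsmul_eq_mul, Polynomial.coe_mul, Polynomial.coe_C, map_mul φ]
        push_cast
        rw [eq_div_iff (pow_ne_zero _ hφq)]
        field_simp
        linear_combination (-φ (q : k⟦X⟧) ^ (m + 2) * φ (q : k⟦X⟧) ^ m * φ (U : k⟦X⟧) *
          φ ((Polynomial.derivative q : Polynomial k) : k⟦X⟧)) * hc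
      have hy1 : y + r ∈ R0 φ := by
        refine ih (q ^ (m + 1) * E) (V + Polynomial.C c * Polynomial.derivative U * E) ?_ ?_ _
          (add_mem hy (R0_le hE hr)) ?_
        · have e1 : B.natDegree = (q ^ (m + 1) * E).natDegree + q.natDegree := by
            rw [hE1, Polynomial.natDegree_mul (pow_ne_zero _ hq.ne_zero) hE0,
              Polynomial.natDegree_mul (pow_ne_zero _ hq.ne_zero) hE0, Polynomial.natDegree_pow,
              Polynomial.natDegree_pow]
            ring
          omega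
        · exact mul_ne_zero (pow_ne_zero _ hq.ne_zero) hE0
        · rw [map_add, hDr]
          have h' : D y = (φ (U : k⟦X⟧) * (φ ((Polynomial.derivative q : Polynomial k) : k⟦X⟧) *
              φ (E : k⟦X⟧)) + φ (V : k⟦X⟧) * φ (q : k⟦X⟧)) /
                (φ (q : k⟦X⟧) ^ (m + 2) * φ (E : k⟦X⟧)) := by
            rw [eq_div_iff (mul_ne_zero (pow_ne_zero _ hφq) hφE)]
            have h2 := h
            rw [hE1, hUV] at h2
            simp only [Polynomial.coe_mul, Polynomial.coe_pow, Polynomial.coe_add, map_mul, map_pow,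
              map_add] at h2
            linear_combination h2
          rw [h']
          simp only [Polynomial.coe_mul, Polynomial.coe_pow, Polynomial.coe_add, map_mul, map_pow,
            map_add, Polynomial.coe_C]
          field_simp
          ring
      have h4 := sub_mem hy1 hr
      rwa [add_sub_cancel_right] at h4
  intro y hy hDy
  obtain ⟨P, Q, hQ, h⟩ := (R0_iff hE).1 hDy
  exact key _ Q P (Nat.lt_succ_self _) hQ y hy h

end Run7.h131.PP
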