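import Mathlib
import Pool.Agent.Run7.h131.PP.Herm
import Pool.Agent.Run7.h131.LL.Tow

/-!
# Algebraic series and composition
-/

set_option autoImplicit false
open PowerSeries NumberField
open H497R2 (OmInt OmAlg Av mem_Av)
open Run7.h131.LL (PA mem_PA liftA map_liftA FL jj jj_inj DD DD_jj AO alg_iff_der)

namespace Run7.h131.PP

variable {k : Type*} [Field k] [CharZero k]

/-- the coefficients of an algebraic series -/
theorem alg_coeffs {A : Subalgebra ℚ k} {G : Polynomial k⟦X⟧} (hG : ∀ i, G.coeff i ∈ PA A)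
    {w : k⟦X⟧} (hw : G.eval w = 0) {e : ℕ} (he : X ^ e ∣ G.derivative.eval w)
    (hc : coeff e (G.derivative.eval w) ≠ 0) (hci : (coeff e (G.derivative.eval w))⁻¹ ∈ A)
    (hw0 : ∀ m ≤ e, coeff m w ∈ A) : w ∈ PA A := by
  intro m
  induction m using Nat.strong_induction_on with
  | _ m ih =>
    rcases Nat.lt_or_ge e m with hm | hm
    swap
    · exact hw0 m hm
    let s : k⟦X⟧ := ((trunc m w : Polynomial k) : k⟦X⟧)
    have hs : s ∈ PA A := by
      intro i
      simp only [s]
      rw [Polynomial.coeff_coe, coeff_trunc]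
      split_ifs with h
      · exact ih i h
      · exact zero_mem _
    obtain ⟨t, ht⟩ : X ^ m ∣ w - s := by
      rw [X_pow_dvd_iff]
      intro i hi
      simp only [s]
      rw [map_sub, Polynomial.coeff_coe, coeff_trunc, if_pos hi, sub_self]
    have hwst : w = s + X ^ m * t := by rw [← ht]; ring
    obtain ⟨q, hq⟩ := G.binomExpansion s (X ^ m * t)
    rw [← hwst, hw] at hq
    obtain ⟨r, hr⟩ : X ^ m ∣ G.derivative.eval w - G.derivative.eval s := by
      refine Dvd.dvd.trans ?_ (G.derivative.sub_dvd_eval_sub w s)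
      exact ⟨t, ht⟩
    obtain ⟨u, hu⟩ := he
    have hce : coeff e (G.derivative.eval w) = coeff 0 u := by
      rw [hu]
      have := coeff_X_pow_mul u e 0
      rwa [zero_add] at this
    have hGs : G.eval s ∈ PA A := by
      rw [Polynomial.eval_eq_sum_range]
      exact sum_mem fun i _ => mul_mem (hG i) (pow_mem hs i)
    -- coefficient `m + e`
    have hd : G.derivative.eval s = X ^ e * u - X ^ m * r := by
      rw [← hu, ← hr]; ring
    have h1 : (0 : k⟦X⟧) = G.eval s + X ^ (m + e) * (u * t) +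
        X ^ (m + e + 1) * (X ^ (m - e - 1) * (q * t ^ 2 - r * t)) := by
      have e1 : (X : k⟦X⟧) ^ (m + e + 1) * X ^ (m - e - 1) = X ^ m * X ^ m := by
        rw [← pow_add, ← pow_add]; congr 1; omega
      have e2 : (X : k⟦X⟧) ^ (m + e + 1) * (X ^ (m - e - 1) * (q * t ^ 2 - r * t)) =
          X ^ m * X ^ m * (q * t ^ 2 - r * t) := by rw [← mul_assoc, e1]
      rw [e2, hq, hd, pow_add]
      ring
    have h2 := congrArg (coeff (m + e)) h1
    rw [map_zero, map_add, map_add] at h2
    have h3 : coeff (m + e) (X ^ (m + e) * (u * t)) = coeff 0 u * coeff 0 t := by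
      have := coeff_X_pow_mul (u * t) (m + e) 0
      rw [zero_add] at this
      rw [this]
      simp only [coeff_zero_eq_constantCoeff_apply, map_mul]
    have h4 : coeff (m + e) (X ^ (m + e + 1) * (X ^ (m - e - 1) * (q * t ^ 2 - r * t))) = 0 := by
      rw [coeff_X_pow_mul', if_neg (by omega)]
    rw [h3, h4, add_zero] at h2
    have h5 : coeff m w = coeff 0 t := by
      rw [hwst, map_add]
      have e1 : coeff m s = 0 := by
        simp only [s]
        rw [Polynomial.coeff_coe, coeff_trunc, if_neg (lt_irrefl m)]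
      have e2 : coeff m (X ^ m * t) = coeff 0 t := by
        have := coeff_X_pow_mul t m 0
        rwa [zero_add] at this
      rw [e1, e2, zero_add]
    have h6 : coeff m w = -(coeff (m + e) (G.eval s)) * (coeff e (G.derivative.eval w))⁻¹ := by
      rw [eq_mul_inv_iff_mul_eq₀ hc, h5, hce]
      linear_combination -h2
    rw [h6]
    exact mul_mem (neg_mem (hGs _)) hci

lemma coeff_mem_sub {A B : Subalgebra ℚ k} (h : A ≤ B) {u : k⟦X⟧} (hu : u ∈ PA A) : u ∈ PA B :=
  fun m => h (hu m)

/-- `SOr k` is algebraically closed in `k⟦X⟧`. -/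
theorem SO_alg {w : k⟦X⟧} (h : IsAlgebraic (SOr k) w) : SO w := by
  classical
  obtain ⟨p, hp, hpw⟩ := h
  haveI : CharZero (SOr k) := charZero_of_injective_algebraMap
    (R := ℤ) (A := SOr k) (by
      intro a b hab
      have h1 := congrArg (fun x : SOr k => constantCoeff (x : k⟦X⟧)) hab
      simpa using h1)
  obtain ⟨q, hq, hq'⟩ := H497R2.exists_simple w _ p rfl hp hpw
  let G : Polynomial k⟦X⟧ := q.map (algebraMap (SOr k) k⟦X⟧)
  have hG : G.eval w = 0 := by rw [Polynomial.eval_map_algebraMap, hq]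
  have hG' : G.derivative.eval w ≠ 0 := by
    simp only [G]
    rw [Polynomial.derivative_map, Polynomial.eval_map_algebraMap]
    exact hq'
  obtain ⟨e, W, hW, hWe⟩ := H497R2.order_split hG'
  have hce : coeff e (G.derivative.eval w) = constantCoeff W := by
    rw [hWe]
    have := coeff_X_pow_mul W e 0
    rw [zero_add] at this
    rw [this, coeff_zero_eq_constantCoeff_apply]
  have hSO : ∀ i, SO ((q.coeff i : SOr k) : k⟦X⟧) := fun i => (q.coeff i).2
  choose Sq hSq using hSO
  let T : Finset k := (q.support.biUnion Sq) ∪ ((Finset.range (e + 1)).image fun m => coeff m w) ∪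
    {(constantCoeff W)⁻¹}
  refine ⟨T, fun A hA => ?_⟩
  simp only [T, Finset.coe_union, Set.union_subset_iff] at hA
  obtain ⟨⟨hA1, hA2⟩, hA3⟩ := hA
  have hl : ∀ i ∈ q.support, ∃ u' : A⟦X⟧, map (A.val : A →+* k) u' = ((q.coeff i : SOr k) : k⟦X⟧) ∧
      ∀ (K : Type) [Field K] [NumberField K] (σ : A →+* K), OmInt (map σ u') := by
    intro i hi
    refine hSq i A (Set.Subset.trans ?_ hA1)
    intro x hx
    exact Finset.mem_coe.2 (Finset.mem_biUnion.2 ⟨i, hi, hx⟩)
  have hl' : ∀ i, ∃ u' : A⟦X⟧, map (A.val : A →+* k) u' = ((q.coeff i : SOr k) : k⟦X⟧) ∧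
      ∀ (K : Type) [Field K] [NumberField K] (σ : A →+* K), OmInt (map σ u') := by
    intro i
    by_cases hi : i ∈ q.support
    · exact hl i hi
    · refine ⟨0, by rw [Polynomial.notMem_support_iff.1 hi, map_zero]; rfl, fun K _ _ σ => ?_⟩
      rw [map_zero]
      exact (OmAlg K).zero_mem
  choose c hc1 hc2 using hl'
  have hι : Function.Injective (map (A.val : A →+* k)) :=
    PowerSeries.map_injective _ Subtype.val_injective
  have hGA : ∀ i, G.coeff i ∈ PA A := by
    intro i m
    simp only [G]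
    rw [Polynomial.coeff_map]
    change coeff m ((q.coeff i : SOr k) : k⟦X⟧) ∈ A
    rw [← hc1, coeff_map]
    exact (coeff m (c i)).2
  have hw : w ∈ PA A := by
    refine alg_coeffs hGA hG (e := e) ?_ ?_ ?_ ?_
    · rw [hWe]; exact dvd_mul_right _ _
    · rw [hce]; exact hW
    · rw [hce]; exact hA3 (by simp)
    · intro m hm
      exact hA2 (Finset.mem_coe.2 (Finset.mem_image.2 ⟨m, Finset.mem_range.2 (by omega), rfl⟩))
  refine ⟨liftA w hw, map_liftA w hw, fun K _ _ σ => ?_⟩
  apply H497R2.OmInt_of_isAlgebraic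
  -- the lifted polynomial
  let N := q.natDegree + 1
  let Q : Polynomial A⟦X⟧ := ∑ i ∈ Finset.range N, Polynomial.monomial i (c i)
  have hQG : Q.map (map (A.val : A →+* k)) = G := by
    simp only [Q, G]
    rw [Polynomial.map_sum]
    conv_rhs => rw [Polynomial.as_sum_range' q N (Nat.lt_succ_self _)]
    rw [Polynomial.map_sum]
    refine Finset.sum_congr rfl fun i _ => ?_
    rw [Polynomial.map_monomial, Polynomial.map_monomial, hc1]
    rfl
  have hQw : Q.eval (liftA w hw) = 0 := by
    apply hι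
    rw [map_zero, ← hG, ← hQG, ← Polynomial.eval_map_apply, map_liftA]
  have hQw' : map (A.val : A →+* k) (Q.derivative.eval (liftA w hw)) = G.derivative.eval w := by
    rw [← hQG, Polynomial.derivative_map, ← Polynomial.eval_map_apply, map_liftA]
  let P : Polynomial (OmAlg K) :=
    ∑ i ∈ Finset.range N, Polynomial.monomial i ⟨map σ (c i), hc2 i K σ⟩
  have hPQ : P.map (algebraMap (OmAlg K) K⟦X⟧) = Q.map (map σ) := by
    simp only [P, Q]
    rw [Polynomial.map_sum, Polynomial.map_sum]
    refine Finset.sum_congr rfl fun i _ => ?_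
    rw [Polynomial.map_monomial, Polynomial.map_monomial]
    rfl
  refine ⟨P, ?_, ?_⟩
  · intro h0
    have h1 : Q.map (map σ) = 0 := by rw [← hPQ, h0, Polynomial.map_zero]
    have h2 : map σ (Q.derivative.eval (liftA w hw)) = 0 := by
      rw [← Polynomial.eval_map_apply, ← Polynomial.derivative_map, h1, Polynomial.derivative_zero,
        Polynomial.eval_zero]
    have h3 := congrArg (coeff e) h2
    rw [coeff_map, map_zero] at h3
    have h4 : ((coeff e (Q.derivative.eval (liftA w hw)) : A) : k) = constantCoeff W := by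
      rw [← hce, ← hQw', coeff_map]; rfl
    have h5 : coeff e (Q.derivative.eval (liftA w hw)) * ⟨(constantCoeff W)⁻¹, hA3 (by simp)⟩ =
        (1 : A) := by
      apply Subtype.ext
      change ((coeff e (Q.derivative.eval (liftA w hw)) : A) : k) * (constantCoeff W)⁻¹ = 1
      rw [h4]
      exact mul_inv_cancel₀ hW
    have h6 := congrArg σ h5
    rw [map_mul, h3, zero_mul, map_one] at h6
    exact zero_ne_one h6
  · rw [← Polynomial.eval_map_algebraMap, hPQ, Polynomial.eval_map_apply, hQw, map_zero]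

section comp

lemma coeff_subst_le {R : Type*} [CommRing R] {f ρ : R⟦X⟧} (hρ : constantCoeff ρ = 0) (n : ℕ) :
    coeff n (subst ρ f) = ∑ d ∈ Finset.range (n + 1), coeff d f * coeff n (ρ ^ d) := by
  rw [coeff_subst' (HasSubst.of_constantCoeff_zero' hρ)]
  rw [finsum_eq_sum_of_support_subset]
  · refine Finset.sum_congr rfl fun d _ => ?_
    rw [smul_eq_mul]
  · intro d hd
    rw [Function.mem_support] at hd
    rw [Finset.coe_range, Set.mem_Iio]
    by_contra hlt
    apply hd
    have h1 : (X : R⟦X⟧) ∣ ρ := X_dvd_iff.2 hρ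
    have h2 : (X : R⟦X⟧) ^ d ∣ ρ ^ d := pow_dvd_pow_of_dvd h1 d
    rw [X_pow_dvd_iff] at h2
    rw [h2 n (by omega), smul_zero]

lemma OmInt_subst {K : Type*} [Field K] [NumberField K] {f ρ : K⟦X⟧} (hf : OmInt f)
    (hρ : OmInt ρ) (h0 : constantCoeff ρ = 0) : OmInt (subst ρ f) := by
  intro M
  filter_upwards [hf M, hρ M] with v h1 h2
  intro n hn
  have e : coeff n (subst ρ f : K⟦X⟧) = _ := coeff_subst_le h0 n
  rw [e]
  refine Valuation.map_sum_le _ fun d hd => ?_
  rw [Finset.mem_range] at hd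
  rw [map_mul]
  exact mul_le_one' (h1 d (by omega)) ((pow_mem h2 d) n hn)

theorem SO_subst {f : ℚ⟦X⟧} (h3 : LL.P3 f) {ρ : k⟦X⟧} (hρ : SO ρ) (h0 : constantCoeff ρ = 0) :
    SO (subst ρ (map (algebraMap ℚ k) f) : k⟦X⟧) := by
  obtain ⟨S, hS⟩ := hρ
  refine ⟨S, fun A hA => ?_⟩
  obtain ⟨r, hr1, hr2⟩ := hS A hA
  have hr0 : constantCoeff r = 0 := by
    apply Subtype.val_injective (p := fun x => x ∈ A)
    have := congrArg (coeff 0) hr1
    rw [coeff_map, coeff_zero_eq_constantCoeff_apply, coeff_zero_eq_constantCoeff_apply, h0] at this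
    exact this
  refine ⟨subst r (map (algebraMap ℚ A) f), ?_, fun K _ _ σ => ?_⟩
  · have e := PowerSeries.map_subst (HasSubst.of_constantCoeff_zero' hr0) (h := (A.val : A →+* k))
      (map (algebraMap ℚ A) f)
    have e1 : map (A.val : A →+* k) (map (algebraMap ℚ A) f) = map (algebraMap ℚ k) f := by
      ext n; rw [coeff_map, coeff_map, coeff_map]; rfl
    change map (A.val : A →+* k) (subst r (map (algebraMap ℚ A) f)) = _
    rw [e1] at e
    rw [← hr1]
    exact e
  · have e := PowerSeries.map_subst (HasSubst.of_constantCoeff_zero' hr0) (h := σ)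
      (map (algebraMap ℚ A) f)
    have e1 : map σ (map (algebraMap ℚ A) f) = map (algebraMap ℚ K) f := by
      ext n
      rw [coeff_map, coeff_map, coeff_map, ← RingHom.comp_apply]
      exact congrFun (congrArg DFunLike.coe (Subsingleton.elim (σ.comp (algebraMap ℚ A))
        (algebraMap ℚ K))) _
    rw [e1] at e
    have e2 : map σ (subst r (map (algebraMap ℚ A) f) : A⟦X⟧) =
        (subst (map σ r) (map (algebraMap ℚ K) f) : K⟦X⟧) := e
    rw [e2]
    refine OmInt_subst (LL.OmInt_of_P3 h3) (hr2 K σ) ?_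
    have e3 : constantCoeff (map σ r) = σ (constantCoeff r) := by
      rw [← coeff_zero_eq_constantCoeff_apply, coeff_map, coeff_zero_eq_constantCoeff_apply]
    rw [e3, hr0, map_zero]

/-- algebraic series -/
lemma SO_of_alg {w : k⟦X⟧} (h : IsAlgebraic (Polynomial k) w) : SO w := by
  apply SO_alg
  let ψ : Polynomial k →+* SOr k :=
    (Polynomial.coeToPowerSeries.ringHom (R := k)).codRestrict (SOr k) (fun P => SO_poly P)
  have hψ : Function.Injective ψ := by
    intro P Q h
    exact Polynomial.coe_injective k (congrArg Subtype.val h)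
  refine h.ringHom_of_comp_eq ψ (RingHom.id k⟦X⟧) hψ ?_
  ext1
  · ext1 c
    change (((ψ (Polynomial.C c) : SOr k) : k⟦X⟧)) = algebraMap (Polynomial k) k⟦X⟧ (Polynomial.C c)
    rw [LL.algebraMap_polyK]
    rfl
  · change (((ψ Polynomial.X : SOr k) : k⟦X⟧)) = algebraMap (Polynomial k) k⟦X⟧ Polynomial.X
    rw [LL.algebraMap_polyK]
    rfl

end comp

section descend

variable {ρ : k⟦X⟧}

/-- the composition as an algebra homomorphism -/
noncomputable def cmpHom (ρ : k⟦X⟧) (h0 : constantCoeff ρ = 0) : k⟦X⟧ →ₐ[k] k⟦X⟧ :=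
  substAlgHom (HasSubst.of_constantCoeff_zero' h0)

lemma cmpHom_apply (h0 : constantCoeff ρ = 0) (f : k⟦X⟧) : cmpHom ρ h0 f = subst ρ f := by
  rw [cmpHom]
  exact congrFun (coe_substAlgHom (HasSubst.of_constantCoeff_zero' h0)) f

lemma cmpHom_X (h0 : constantCoeff ρ = 0) : cmpHom ρ h0 X = ρ :=
  substAlgHom_X (HasSubst.of_constantCoeff_zero' h0)

lemma cmpHom_inj (h0 : constantCoeff ρ = 0) (hne : ρ ≠ 0) : Function.Injective (cmpHom ρ h0) := by
  rw [injective_iff_map_eq_zero]
  intro u hu
  by_contra hu0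
  obtain ⟨m, w, hw, rfl⟩ := H497R2.order_split hu0
  rw [map_mul, map_pow, cmpHom_X] at hu
  have hwu : IsUnit (cmpHom ρ h0 w) :=
    (PowerSeries.isUnit_iff_constantCoeff.2 (isUnit_iff_ne_zero.2 hw)).map _
  exact (mul_ne_zero (pow_ne_zero _ hne) hwu.ne_zero) hu

/-- algebraicity of `f ∘ ρ` over `k[ρ]` -/
lemma alg_of_cmp (h0 : constantCoeff ρ = 0) (hne : ρ ≠ 0) {f : k⟦X⟧}
    (h : IsAlgebraic (Algebra.adjoin k {ρ}) (subst ρ f : k⟦X⟧)) :
    IsAlgebraic (Polynomial k) f := by
  rw [LL.alg_poly_iff]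
  let A := Algebra.adjoin k {(X : k⟦X⟧)}
  let φ := cmpHom ρ h0
  have hφ : Function.Injective φ := cmpHom_inj h0 hne
  have hmap : A.map φ = Algebra.adjoin k {ρ} := by
    rw [AlgHom.map_adjoin, Set.image_singleton, cmpHom_X]
  rw [← cmpHom_apply h0] at h
  have aux : ∀ B : Subalgebra k k⟦X⟧, A.map φ = B → IsAlgebraic B (φ f) →
      IsAlgebraic (A.map φ) (φ f) := by
    rintro _ rfl h; exact h
  have h := aux _ hmap h
  let ψ : A ≃ₐ[k] A.map φ := A.equivMapOfInjective φ hφ
  exact IsAlgebraic.of_ringHom_of_comp_eq (a := f) (ψ : A →+* A.map φ) (φ : k⟦X⟧ →+* k⟦X⟧) h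
    ψ.surjective hφ (RingHom.ext fun _ => rfl)

/-- two algebraic series -/
lemma alg_swap {u : k⟦X⟧} (h0 : constantCoeff ρ = 0) (hne : ρ ≠ 0)
    (hρ : IsAlgebraic (Polynomial k) ρ) (hu : IsAlgebraic (Polynomial k) u) :
    IsAlgebraic (Algebra.adjoin k {ρ}) u := by
  rw [alg_iff_der]
  intro E hE
  have hEρ := hE ρ (Set.mem_singleton _)
  -- the two derivations agree on algebraic elements
  let c := E (jj X)
  have key : ∀ w : k⟦X⟧, IsAlgebraic (Polynomial k) w → E (jj w) = c * jj (d⁄dX k w) := by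
    intro w hw
    rw [LL.alg_poly_iff, alg_iff_der] at hw
    have h1 := hw (E - c • DD) (by
      intro y hy
      rw [Set.mem_singleton_iff] at hy
      rw [hy, Derivation.sub_apply, Derivation.smul_apply, DD_jj, derivative_X, map_one,
        smul_eq_mul, mul_one, sub_self])
    rw [Derivation.sub_apply, Derivation.smul_apply, DD_jj, smul_eq_mul, sub_eq_zero] at h1
    exact h1
  have h1 := key ρ hρ
  rw [hEρ] at h1
  have hρ' : jj (d⁄dX k ρ) ≠ 0 := by
    intro h2
    apply hne
    have h3 : d⁄dX k ρ = 0 := by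
      have : jj (d⁄dX k ρ) = jj 0 := by rw [h2, map_zero]
      exact jj_inj this
    have h4 : d⁄dX k ρ = d⁄dX k 0 := by rw [h3, map_zero]
    exact derivative.ext h4 (by rw [h0, map_zero])
  have hc : c = 0 := by
    rcases mul_eq_zero.1 h1.symm with h | h
    · exact h
    · exact absurd h hρ'
  rw [key u hu, hc, zero_mul]

end descend

end Run7.h131.PP
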