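import Mathlib
import Pool.Agent.Run7.h131.PP.Comp
import Pool.Agent.Run7.h131.PP.TowA

/-!
# The theorem on towers of primitives
-/

set_option autoImplicit false
open PowerSeries

namespace Run7.h131.PP

variable {k : Type*} [Field k] [CharZero k] {Ω : Type*} [Field Ω]

/-- the field `k(x, S)` -/
def Gen (φ : k⟦X⟧ →+* Ω) (S : Set Ω) : Subfield Ω :=
  Subfield.closure (Set.range (fun c : k => φ (C c)) ∪ {φ X} ∪ S)

lemma alg_mono {K L : Subfield Ω} (h : K ≤ L) {x : Ω} (hx : IsAlgebraic K x) : IsAlgebraic L x :=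
  hx.ringHom_of_comp_eq (Subfield.inclusion h) (RingHom.id Ω) (Subfield.inclusion h).injective
    (RingHom.ext fun _ => rfl)

variable [CharZero Ω] {D : Derivation ℤ Ω Ω} {φ : k⟦X⟧ →+* Ω}

/-- from the field of rational functions to the ring of polynomials -/
lemma alg_R0 (hE : Emb D φ) {u : k⟦X⟧} (h : IsAlgebraic (R0 φ) (φ u)) :
    IsAlgebraic (Polynomial k) u := by
  classical
  obtain ⟨P, hP0, hP⟩ := h
  have hc : ∀ i, ∃ p q : Polynomial k, q ≠ 0 ∧ φ (q : k⟦X⟧) * (P.coeff i : Ω) = φ (p : k⟦X⟧) :=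
    fun i => (R0_iff hE).1 (P.coeff i).2
  choose p q hq hpq using hc
  let N := P.natDegree + 1
  let g : ℕ → Polynomial k := fun i => p i * ∏ j ∈ (Finset.range N).erase i, q j
  let Q : Polynomial k := ∏ j ∈ Finset.range N, q j
  have hQ : Q ≠ 0 := Finset.prod_ne_zero_iff.2 fun j _ => hq j
  have hg : ∀ i ∈ Finset.range N, φ (g i : k⟦X⟧) = φ (Q : k⟦X⟧) * (P.coeff i : Ω) := by
    intro i hi
    have h1 : Q = q i * ∏ j ∈ (Finset.range N).erase i, q j :=
      (Finset.mul_prod_erase _ _ hi).symm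
    simp only [g]
    rw [h1, Polynomial.coe_mul, map_mul, Polynomial.coe_mul, map_mul, ← hpq]
    ring
  refine ⟨∑ i ∈ Finset.range N, Polynomial.monomial i (g i), ?_, ?_⟩
  · intro h0
    have h1 := congrArg (fun R : Polynomial (Polynomial k) => R.coeff P.natDegree) h0
    simp only [Polynomial.finset_sum_coeff, Polynomial.coeff_monomial, Polynomial.coeff_zero] at h1
    rw [Finset.sum_ite_eq' (Finset.range N) P.natDegree,
      if_pos (Finset.self_mem_range_succ _)] at h1
    have h2 := hg P.natDegree (Finset.self_mem_range_succ _)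
    rw [h1, Polynomial.coe_zero, map_zero] at h2
    have h3 : (P.coeff P.natDegree : Ω) ≠ 0 := by
      have := Polynomial.leadingCoeff_ne_zero.2 hP0
      rw [Polynomial.leadingCoeff] at this
      exact_mod_cast this
    exact (mul_ne_zero (poly_ne hE hQ) h3) h2.symm
  · apply hE.inj
    rw [map_zero, map_sum, map_sum]
    have h1 : Polynomial.aeval (φ u) P = ∑ i ∈ Finset.range N, (P.coeff i : Ω) * (φ u) ^ i := by
      rw [Polynomial.aeval_eq_sum_range' (Nat.lt_succ_self _)]; rfl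
    rw [hP] at h1
    have h2 : ∀ i ∈ Finset.range N, φ (Polynomial.aeval u (Polynomial.monomial i (g i))) =
        φ (Q : k⟦X⟧) * ((P.coeff i : Ω) * (φ u) ^ i) := by
      intro i hi
      rw [Polynomial.aeval_monomial, LL.algebraMap_polyK, map_mul, map_pow, hg i hi]
      ring
    rw [Finset.sum_congr rfl h2, ← Finset.mul_sum, ← h1, mul_zero]

lemma Gen_le {S : Set Ω} {L : Subfield Ω} (hL : R0 φ ≤ L) (hS : S ⊆ L) : Gen φ S ≤ L := by
  rw [Gen, Subfield.closure_le]
  rintro x ((⟨c, rfl⟩ | hx) | hx)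
  · apply hL
    have := poly_mem_R0 (φ := φ) (Polynomial.C c)
    rwa [Polynomial.coe_C] at this
  · rw [Set.mem_singleton_iff] at hx
    rw [hx]
    apply hL
    have := poly_mem_R0 (φ := φ) (Polynomial.X)
    rwa [Polynomial.coe_X] at this
  · exact hS hx

lemma Rt_mono {R : Subfield Ω} {θ : ℕ → Ω} {m n : ℕ} (h : m ≤ n) : Rt R θ m ≤ Rt R θ n := by
  induction n with
  | zero =>
    obtain rfl : m = 0 := by omega
    exact le_rfl
  | succ n ih =>
    rcases Nat.lt_or_ge n m with h1 | h1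
    · obtain rfl : m = n + 1 := by omega
      exact le_rfl
    · exact (ih h1).trans (le_adj _ _)

lemma mem_Rt {R : Subfield Ω} {θ : ℕ → Ω} {m n : ℕ} (h : m < n) : θ m ∈ Rt R θ n :=
  Rt_mono (θ := θ) (Nat.succ_le_of_lt h) (self_mem_adj _ _)

/-- **Towers of primitives**, main implication. -/
theorem prim_final (hE : Emb D φ) {ρ : k⟦X⟧} (hρ : IsAlgebraic (Polynomial k) ρ)
    (h0 : constantCoeff ρ = 0) (hne : ρ ≠ 0) {n : ℕ} {θ : Fin n → Ω}
    (hθ : ∀ i, D (θ i) ∈ Gen φ (θ '' {j | j < i})) {f : ℚ⟦X⟧}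
    (hf : IsAlgebraic (Gen φ (Set.range θ))
      (φ (subst ρ (PowerSeries.map (algebraMap ℚ k) f)))) (h3 : LL.P3 f) :
    IsAlgebraic (Polynomial k) (PowerSeries.map (algebraMap ℚ k) f) := by
  let θ' : ℕ → Ω := fun i => if h : i < n then θ ⟨i, h⟩ else 0
  have hθ' : ∀ i : Fin n, θ' i = θ i := fun i => by simp [θ']
  have hR : ∀ i < n, D (θ' i) ∈ Rt (R0 φ) θ' i := by
    intro i hi
    have h1 := hθ ⟨i, hi⟩
    rw [← hθ'] at h1
    refine Gen_le (Rt_mono (m := 0) (Nat.zero_le _)) ?_ h1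
    rintro _ ⟨j, hj, rfl⟩
    rw [← hθ']
    exact mem_Rt (R := R0 φ) (θ := θ') (m := j) (n := i) hj
  obtain ⟨F', -, -, -, -, -, h6⟩ := towerA (R0_DF hE) (F0_DF hE) (R0_le hE) (prim0 hE) θ' n hR
  have hu := (SO_subst h3 (SO_of_alg hρ) h0).mem hE
  have h7 : IsAlgebraic (Rt (R0 φ) θ' n)
      (φ (subst ρ (PowerSeries.map (algebraMap ℚ k) f))) := by
    refine alg_mono (Gen_le (Rt_mono (m := 0) (Nat.zero_le _)) ?_) hf
    rintro _ ⟨j, rfl⟩
    rw [← hθ']
    exact mem_Rt (R := R0 φ) (θ := θ') (m := j) (n := n) j.2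
  exact alg_of_cmp h0 hne (alg_swap h0 hne hρ (alg_R0 hE (h6 _ hu h7)))

/-- descent of algebraicity to the rational numbers, any constants -/
theorem alg_descend' {f : ℚ⟦X⟧} (h : IsAlgebraic (Polynomial k) (PowerSeries.map (algebraMap ℚ k) f)) :
    IsAlgebraic (Polynomial ℚ) f := by
  classical
  obtain ⟨P, hP0, hP⟩ := h
  obtain ⟨j₀, hj₀⟩ : ∃ j, P.coeff j ≠ 0 := by
    by_contra hno
    push Not at hno
    exact hP0 (Polynomial.ext fun j => by rw [hno j]; simp)
  obtain ⟨i₀, hi₀⟩ : ∃ i, (P.coeff j₀).coeff i ≠ 0 := by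
    by_contra hno
    push Not at hno
    exact hj₀ (Polynomial.ext fun j => by rw [hno j]; simp)
  obtain ⟨lam, hlam⟩ : ∃ lam : Module.Dual ℚ k, lam ((P.coeff j₀).coeff i₀) ≠ 0 := by
    by_contra hno
    push Not at hno
    exact hi₀ ((Module.forall_dual_apply_eq_zero_iff ℚ _).1 hno)
  let lp : Polynomial k → Polynomial ℚ := fun p =>
    ∑ a ∈ p.support, Polynomial.monomial a (lam (p.coeff a))
  have hlp : ∀ p a, (lp p).coeff a = lam (p.coeff a) := by
    intro p a
    simp only [lp]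
    rw [Polynomial.finset_sum_coeff]
    simp only [Polynomial.coeff_monomial]
    rw [Finset.sum_ite_eq' p.support a]
    split_ifs with h
    · rfl
    · rw [Polynomial.notMem_support_iff.1 h, map_zero]
  let N := P.natDegree + 1
  have hjN : j₀ ∈ Finset.range N := by
    rw [Finset.mem_range]
    exact Nat.lt_succ_of_le (Polynomial.le_natDegree_of_ne_zero hj₀)
  refine ⟨∑ j ∈ Finset.range N, Polynomial.monomial j (lp (P.coeff j)), ?_, ?_⟩
  · intro h0
    have h1 := congrArg (fun R : Polynomial (Polynomial ℚ) => (R.coeff j₀).coeff i₀) h0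
    simp only [Polynomial.finset_sum_coeff, Polynomial.coeff_monomial, Polynomial.coeff_zero] at h1
    rw [Finset.sum_eq_single_of_mem j₀ hjN (fun b _ hb => by rw [if_neg hb]; simp),
      if_pos rfl, hlp] at h1
    exact hlam h1
  · rw [Polynomial.aeval_eq_sum_range' (Nat.lt_succ_self _)] at hP
    rw [map_sum]
    refine PowerSeries.ext fun n => ?_
    have h1 := congrArg (fun w => lam (coeff n w)) hP
    beta_reduce at h1
    rw [map_zero, map_zero, map_sum, map_sum] at h1
    rw [map_zero, map_sum, ← h1]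
    refine Finset.sum_congr rfl fun j _ => ?_
    rw [Polynomial.aeval_monomial, LL.algebraMap_polyK, Algebra.smul_def, LL.algebraMap_polyK,
      ← map_pow, coeff_mul, coeff_mul, map_sum]
    refine Finset.sum_congr rfl fun ab _ => ?_
    rw [Polynomial.coeff_coe, Polynomial.coeff_coe, coeff_map, hlp, mul_comm ((P.coeff j).coeff ab.1),
      ← Algebra.smul_def, map_smul, smul_eq_mul, mul_comm]

end Run7.h131.PP
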