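import Mathlib
import Pool.Agent.H497R2.Rel
import Pool.Agent.H497R2.Frob
import Pool.Agent.Run7.h131.PP.SO

/-!
# Integral power series with logarithmic derivative forms as derivatives
-/

set_option autoImplicit false
open NumberField IsDedekindDomain Filter PowerSeries
open H497R2

namespace Run7.h131.PP

section nf

variable {K : Type} [Field K] [NumberField K] [IsGalois ℚ K]

/-- an integral series is not a nontrivial combination of logarithms -/
theorem nf_log {ι : Type*} (h : ι → K⟦X⟧) (hh : ∀ i, OmInt (h i)) (hne : ∀ i, h i ≠ 0)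
    {y : K⟦X⟧} (hy : OmInt y) : ∀ (n : ℕ) (s : Finset ι) (lam : ι → K), s.card ≤ n →
      th y = ∑ i ∈ s, C (lam i) * dl (h i) → th y = 0 := by
  classical
  intro n
  induction n with
  | zero =>
    intro s lam hs heq
    rw [Finset.card_eq_zero.1 (Nat.le_zero.1 hs), Finset.sum_empty] at heq
    exact heq
  | succ n ih =>
    intro s lam hs heq
    by_cases hlam : ∃ i ∈ s, lam i = 0
    · obtain ⟨i, hi, hi0⟩ := hlam
      refine ih (s.erase i) lam ?_ ?_
      · rw [Finset.card_erase_of_mem hi]; omega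
      · rw [heq, ← Finset.add_sum_erase _ _ hi, hi0, map_zero, zero_mul, zero_add]
    push Not at hlam
    rcases s.eq_empty_or_nonempty with rfl | ⟨i₁, hi₁⟩
    · rw [Finset.sum_empty] at heq; exact heq
    -- the relation modulo `v`
    have hrel : ∀ j, ∀ᶠ v : HeightOneSpectrum (𝓞 K) in cofinite,
        v.valuation K (∑ i : s, lam i * coeff (rc v * j) (dl (h i))) < 1 := by
      intro j
      filter_upwards [hy j] with v hv
      have h1 := congrArg (coeff (rc v * j)) heq
      rw [map_sum] at h1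
      simp only [coeff_C_mul] at h1
      rw [Finset.sum_coe_sort s (fun i => lam i * coeff (rc v * j) (dl (h i))), ← h1, coeff_th]
      push_cast
      rw [mul_assoc, map_mul, map_mul]
      have h2 : v.valuation K (coeff (rc v * j) y) ≤ 1 := hv _ (by rw [mul_comm])
      calc v.valuation K (rc v : K) * (v.valuation K (j : K) * v.valuation K (coeff (rc v * j) y))
          ≤ v.valuation K (rc v : K) * 1 := by
            gcongr
            exact mul_le_one' (val_nat_le v j) h2
        _ < 1 := by rw [mul_one]; exact val_rc_lt v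
    obtain ⟨m, hm0, hm⟩ := exists_int_relation (K := K) (ι := s) frob_generate
      (c := fun i j => coeff j (dl (h i))) (fun i => cart_dl (hh i) (hne i))
      (lam := fun i => lam i) (fun h0 => hlam i₁ hi₁ (congrFun h0 ⟨i₁, hi₁⟩)) hrel
    obtain ⟨⟨i₀, hi₀⟩, hmi⟩ := Function.ne_iff.1 hm0
    rw [Pi.zero_apply] at hmi
    let m' : ι → ℤ := fun i => if hi : i ∈ s then m ⟨i, hi⟩ else 0
    have hm' : ∑ i ∈ s, C ((m' i : ℤ) : K) * dl (h i) = 0 := by
      ext j
      rw [map_sum, map_zero, ← hm j, ← Finset.sum_coe_sort s]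
      refine Finset.sum_congr rfl fun i _ => ?_
      rw [coeff_C_mul]
      simp [m']
    have hmi₀ : ((m' i₀ : ℤ) : K) ≠ 0 := by
      have : m' i₀ = m ⟨i₀, hi₀⟩ := by simp [m', hi₀]
      rw [this]
      exact_mod_cast hmi
    refine ih (s.erase i₀) (fun i => lam i - lam i₀ * ((m' i : ℤ) : K) / ((m' i₀ : ℤ) : K)) ?_ ?_
    · rw [Finset.card_erase_of_mem hi₀]; omega
    · rw [heq]
      have h1 : ∑ i ∈ s, C (lam i) * dl (h i) = ∑ i ∈ s,
          C (lam i - lam i₀ * ((m' i : ℤ) : K) / ((m' i₀ : ℤ) : K)) * dl (h i) := by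
        have h2 : ∑ i ∈ s, C (lam i₀ * ((m' i : ℤ) : K) / ((m' i₀ : ℤ) : K)) * dl (h i) = 0 := by
          have e : ∀ i, C (lam i₀ * ((m' i : ℤ) : K) / ((m' i₀ : ℤ) : K)) * dl (h i) =
              C (lam i₀ / ((m' i₀ : ℤ) : K)) * (C ((m' i : ℤ) : K) * dl (h i)) := by
            intro i
            rw [← mul_assoc, ← map_mul]
            congr 2
            ring
          rw [Finset.sum_congr rfl fun i _ => e i, ← Finset.mul_sum, hm', mul_zero]
        rw [← sub_zero (∑ i ∈ s, C (lam i) * dl (h i)), ← h2, ← Finset.sum_sub_distrib]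
        refine Finset.sum_congr rfl fun i _ => ?_
        rw [map_sub, sub_mul]
      rw [h1, ← Finset.add_sum_erase _ _ hi₀]
      have h3 : lam i₀ - lam i₀ * ((m' i₀ : ℤ) : K) / ((m' i₀ : ℤ) : K) = 0 := by
        rw [mul_div_cancel_right₀ _ hmi₀, sub_self]
      rw [h3, map_zero, zero_mul, zero_add]

/-- the same for quotients -/
theorem nf_log_quot {ι : Type*} (h : ι → K⟦X⟧) (hh : ∀ i, OmInt (h i)) (hne : ∀ i, h i ≠ 0)
    {g w : K⟦X⟧} (hg : OmInt g) (hw : OmInt w) (hw0 : w ≠ 0) (s : Finset ι) (lam : ι → K)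
    (heq : th g * w - th w * g = (∑ i ∈ s, C (lam i) * dl (h i)) * w ^ 2) :
    ∑ i ∈ s, C (lam i) * dl (h i) = 0 := by
  set S := ∑ i ∈ s, C (lam i) * dl (h i) with hS
  obtain ⟨m, w1, w1c, rfl⟩ := order_split hw0
  have hw1 : OmInt w1 := hw.of_X_pow_mul m
  by_cases hg0 : g = 0
  · rw [hg0, mul_zero, sub_zero] at heq
    have : th (0 : K⟦X⟧) = 0 := by unfold th; rw [map_zero, mul_zero]
    rw [this, zero_mul] at heq
    rcases mul_eq_zero.1 heq.symm with h | h
    · exact h
    · exact absurd (pow_eq_zero_iff (two_ne_zero) |>.1 h) hw0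
  obtain ⟨l, g1, g1c, rfl⟩ := order_split hg0
  have hg1 : OmInt g1 := hg.of_X_pow_mul l
  have hthX : ∀ (c : ℕ) (x : K⟦X⟧), th (X ^ c * x) = (c : K⟦X⟧) * (X ^ c * x) + X ^ c * th x := by
    intro c x
    rw [th_mul]
    have : th ((X : K⟦X⟧) ^ c) = (c : K⟦X⟧) * X ^ c := by
      have h1 := mul_dl ((X : K⟦X⟧) ^ c)
      rw [dl_pow X_ne_zero, dl_X, mul_one] at h1
      rw [← h1, mul_comm]
    rw [this]; ring
  rcases Nat.lt_or_ge l m with hlt | hge
  · exfalso
    obtain ⟨e, rfl⟩ : ∃ e, m = l + (e + 1) := ⟨m - l - 1, by omega⟩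
    have h1 : -(((e + 1 : ℕ) : K⟦X⟧)) * (g1 * w1) + (th g1 * w1 - th w1 * g1) =
        S * w1 ^ 2 * X ^ (e + 1) := by
      apply mul_left_cancel₀ (pow_ne_zero (2 * l + (e + 1)) (X_ne_zero (R := K)))
      rw [hthX, hthX] at heq
      have e1 : (X : K⟦X⟧) ^ (l + (e + 1)) = X ^ l * X ^ (e + 1) := pow_add _ _ _
      have e2 : (X : K⟦X⟧) ^ (2 * l + (e + 1)) = X ^ l * X ^ l * X ^ (e + 1) := by
        rw [← pow_add, ← pow_add]; congr 1; omega
      rw [e1] at heq
      rw [e2]
      push_cast at heq ⊢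
      linear_combination heq
    have h2 := congrArg constantCoeff h1
    have h3 : ∀ x : K⟦X⟧, constantCoeff (th x) = 0 := by
      intro x
      have := coeff_th x 0
      rw [Nat.cast_zero, zero_mul, coeff_zero_eq_constantCoeff_apply] at this
      exact this
    rw [map_add, map_mul, map_neg, map_natCast, map_sub, map_mul, map_mul, map_mul, h3, h3,
      zero_mul, zero_mul, sub_zero, add_zero, map_mul, map_pow, constantCoeff_X,
      zero_pow (Nat.succ_ne_zero e), mul_zero] at h2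
    have h4 : ((e + 1 : ℕ) : K) ≠ 0 := by exact_mod_cast Nat.succ_ne_zero e
    exact (mul_ne_zero (neg_ne_zero.2 h4) (mul_ne_zero g1c w1c)) h2
  · obtain ⟨e, rfl⟩ : ∃ e, l = m + e := ⟨l - m, by omega⟩
    set g2 := X ^ e * g1 with hg2
    have hg2I : OmInt g2 := (OmInt_X.pow e).mul hg1
    have h1 : th g2 * w1 - th w1 * g2 = S * w1 ^ 2 := by
      apply mul_left_cancel₀ (pow_ne_zero (2 * m) (X_ne_zero (R := K)))
      have e1 : (X : K⟦X⟧) ^ (m + e) * g1 = X ^ m * g2 := by rw [pow_add, mul_assoc]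
      rw [e1, hthX m g2, hthX m w1] at heq
      have e2 : (X : K⟦X⟧) ^ (2 * m) = X ^ m * X ^ m := by
        rw [← pow_add]; congr 1; omega
      rw [e2]
      linear_combination heq
    have hi : w1 * w1⁻¹ = 1 := PowerSeries.mul_inv_cancel _ w1c
    have hw10 : w1 ≠ 0 := by rintro rfl; exact w1c (map_zero _)
    have h2 : g2 * w1⁻¹ * w1 = g2 := by rw [mul_assoc, mul_comm w1⁻¹ w1, hi, mul_one]
    have h3 : th (g2 * w1⁻¹) = S := by
      apply mul_right_cancel₀ (pow_ne_zero 2 hw10)
      rw [← h1]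
      have h4 := congrArg th h2
      rw [th_mul] at h4
      have h5 : th w1 * g2 = th w1 * (g2 * w1⁻¹ * w1) := by rw [h2]
      rw [← h4, h5]
      ring
    rw [← h3]
    exact nf_log h hh hne (hg2I.mul (hw1.inv w1c)) s.card s lam le_rfl h3

end nf

end Run7.h131.PP
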