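import Mathlib
import Pool.Agent.Run7.h131.PP.NFLog
import Pool.Agent.Run7.h131.PP.Comp

/-!
# Logarithmic derivative forms without primitive, arbitrary constants
-/

set_option autoImplicit false
open PowerSeries NumberField
open H497R2 (OmInt th dl mul_dl dl_unique coeff_th dl_X_pow_mul order_split)
open Run7.h131.LL (PA mem_PA liftA map_liftA C_mem_PA exists_point)

namespace Run7.h131.PP

variable {k : Type*} [Field k] [CharZero k]

lemma inv_mem_PA {A : Subalgebra ℚ k} {W : k⟦X⟧} (hW : W ∈ PA A)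
    (h0 : constantCoeff W ≠ 0) (hi : (constantCoeff W)⁻¹ ∈ A) : W⁻¹ ∈ PA A := by
  have hmul : W * W⁻¹ = 1 := PowerSeries.mul_inv_cancel _ h0
  intro m
  induction m using Nat.strong_induction_on with
  | _ m ih =>
    have h1 := congrArg (coeff m) hmul
    rw [coeff_mul, Finset.Nat.sum_antidiagonal_eq_sum_range_succ_mk, Finset.sum_range_succ'] at h1
    simp only [Nat.sub_zero, coeff_zero_eq_constantCoeff] at h1
    have h2 : coeff m W⁻¹ = (constantCoeff W)⁻¹ * (coeff m (1 : k⟦X⟧) -
        ∑ i ∈ Finset.range m, coeff (i + 1) W * coeff (m - (i + 1)) W⁻¹) := by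
      rw [← h1, add_sub_cancel_left, ← mul_assoc, inv_mul_cancel₀ h0, one_mul]
    rw [h2]
    refine mul_mem hi (sub_mem ?_ (sum_mem fun i hi' => mul_mem (hW _) (ih _ ?_)))
    · exact (PA A).one_mem m
    · rw [Finset.mem_range] at hi'; omega

lemma th_mem_PA {A : Subalgebra ℚ k} {W : k⟦X⟧} (hW : W ∈ PA A) : th W ∈ PA A := by
  intro m
  rw [coeff_th]
  exact mul_mem (natCast_mem A m) (hW m)

lemma th_map' {A K : Type*} [CommRing A] [CommRing K] (φ : A →+* K) (f : A⟦X⟧) :
    map φ (th f) = th (map φ f) := by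
  unfold th
  rw [map_mul, map_X, der_map']

theorem so_log {ι : Type*} [Fintype ι] (h : ι → k⟦X⟧) (hh : ∀ i, SO (h i)) (hne : ∀ i, h i ≠ 0)
    {g w : k⟦X⟧} (hg : SO g) (hw : SO w) (hw0 : w ≠ 0) (lam : ι → k)
    (heq : th g * w - th w * g = (∑ i, C (lam i) * dl (h i)) * w ^ 2) :
    ∑ i, C (lam i) * dl (h i) = 0 := by
  classical
  by_contra hS
  obtain ⟨N, hN⟩ : ∃ N, coeff N (∑ i, C (lam i) * dl (h i)) ≠ 0 := by
    by_contra hno
    push Not at hno
    exact hS (PowerSeries.ext fun m => by rw [hno m]; simp)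
  obtain ⟨M, hM⟩ : ∃ M, coeff M w ≠ 0 := by
    by_contra hno
    push Not at hno
    exact hw0 (PowerSeries.ext fun m => by rw [hno m]; simp)
  have hsp := fun i => order_split (hne i)
  choose m W hWc hW using hsp
  obtain ⟨Sg, hSg⟩ := hg
  obtain ⟨Sw, hSw⟩ := hw
  choose Sh hSh using hh
  let T : Finset k := Sg ∪ Sw ∪ (Finset.univ.biUnion Sh) ∪ (Finset.univ.image lam) ∪
    (Finset.univ.image fun i => (constantCoeff (W i))⁻¹) ∪
    {(coeff M w)⁻¹, (coeff N (∑ i, C (lam i) * dl (h i)))⁻¹}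
  let A := Algebra.adjoin ℚ (T : Set k)
  have hTA : (T : Set k) ⊆ A := Algebra.subset_adjoin
  simp only [T, Finset.coe_union, Set.union_subset_iff] at hTA
  obtain ⟨⟨⟨⟨⟨t1, t2⟩, t3⟩, t4⟩, t5⟩, t6⟩ := hTA
  obtain ⟨K0, _, _, ⟨σ0⟩⟩ := exists_point T
  -- a Galois closure
  let K := IntermediateField.normalClosure ℚ K0 (AlgebraicClosure K0)
  haveI : NumberField K := { to_charZero := inferInstance, to_finiteDimensional := by
                                have : FiniteDimensional ℚ K := inferInstance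
                                convert this }
  haveI : Algebra.IsAlgebraic ℚ (AlgebraicClosure K0) :=
    Algebra.IsAlgebraic.trans ℚ K0 (AlgebraicClosure K0)
  haveI : IsAlgClosure ℚ (AlgebraicClosure K0) := ⟨inferInstance, inferInstance⟩
  haveI : Normal ℚ (AlgebraicClosure K0) := IsAlgClosure.normal ℚ (AlgebraicClosure K0)
  haveI : Normal ℚ K := normalClosure.normal ℚ K0 (AlgebraicClosure K0)
  haveI : IsGalois ℚ K := { }
  let σ : A →+* K := (algebraMap K0 K).comp σ0
  obtain ⟨g', hg1, hg2⟩ := hSg A t1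
  obtain ⟨w', hw1, hw2⟩ := hSw A t2
  have hh' : ∀ i, ∃ u' : A⟦X⟧, map (A.val : A →+* k) u' = h i ∧
      ∀ (K : Type) [Field K] [NumberField K] (σ : A →+* K), OmInt (map σ u') := fun i =>
    hSh i A (fun x hx => t3 (Finset.mem_coe.2 (Finset.mem_biUnion.2 ⟨i, Finset.mem_univ i, hx⟩)))
  choose h' hh1 hh2 using hh'
  have hlam : ∀ i, lam i ∈ A := fun i =>
    t4 (Finset.mem_coe.2 (Finset.mem_image_of_mem _ (Finset.mem_univ i)))
  have hWi : ∀ i, (constantCoeff (W i))⁻¹ ∈ A := fun i =>
    t5 (Finset.mem_coe.2 (Finset.mem_image.2 ⟨i, Finset.mem_univ i, rfl⟩))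
  let ι' : A →+* k := (A.val : A →+* k)
  have hι : Function.Injective ι' := Subtype.val_injective
  have hιS : Function.Injective (map ι') := PowerSeries.map_injective ι' hι
  have hWA : ∀ i, W i ∈ PA A := by
    intro i n
    have h1 : coeff n (W i) = coeff (n + m i) (h i) := by
      rw [hW i, coeff_X_pow_mul]
    rw [h1, ← hh1 i, coeff_map]
    exact (coeff (n + m i) (h' i)).2
  have hdl : ∀ i, dl (h i) ∈ PA A := by
    intro i
    rw [hW i, dl_X_pow_mul (m i) (hWc i)]
    exact add_mem (natCast_mem _ _) (mul_mem (th_mem_PA (hWA i))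
      (inv_mem_PA (hWA i) (hWc i) (hWi i)))
  let d' : ι → A⟦X⟧ := fun i => liftA (dl (h i)) (hdl i)
  have hd' : ∀ i, map ι' (d' i) = dl (h i) := fun i => map_liftA _ _
  let lam' : ι → A := fun i => ⟨lam i, hlam i⟩
  let S' : A⟦X⟧ := ∑ i, C (lam' i) * d' i
  have hS' : map ι' S' = ∑ i, C (lam i) * dl (h i) := by
    simp only [S']
    rw [map_sum]
    refine Finset.sum_congr rfl fun i _ => ?_
    rw [map_mul, map_C, hd']; rfl
  have e1 : ∀ i, h' i * d' i = th (h' i) := by
    intro i
    apply hιS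
    rw [map_mul, hd', th_map', hh1, mul_dl]
  have e2 : th g' * w' - th w' * g' = S' * w' ^ 2 := by
    apply hιS
    rw [map_sub, map_mul, map_mul, th_map', th_map', map_mul, map_pow, hS', hg1, hw1, heq]
  -- units
  have hunit : ∀ (x : A), (x : k) ≠ 0 → (x : k)⁻¹ ∈ A → σ x ≠ 0 := by
    intro x hx0 hxi h0
    have h1 : x * ⟨(x : k)⁻¹, hxi⟩ = 1 := Subtype.ext (mul_inv_cancel₀ hx0)
    have h2 := congrArg σ h1
    rw [map_mul, h0, zero_mul, map_one] at h2
    exact zero_ne_one h2
  have hw'0 : map σ w' ≠ 0 := by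
    intro h0
    have h1 := congrArg (coeff M) h0
    rw [coeff_map, map_zero] at h1
    have e' : ((coeff M w' : A) : k) = coeff M w := by rw [← hw1, coeff_map]; rfl
    exact hunit _ (by rw [e']; exact hM) (by rw [e']; exact t6 (by simp)) h1
  have hh'0 : ∀ i, map σ (h' i) ≠ 0 := by
    intro i h0
    have h1 := congrArg (coeff (m i)) h0
    rw [coeff_map, map_zero] at h1
    have e' : ((coeff (m i) (h' i) : A) : k) = constantCoeff (W i) := by
      have h2 : coeff (m i) (h i) = constantCoeff (W i) := by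
        rw [hW i]
        have := coeff_X_pow_mul (W i) (m i) 0
        rw [zero_add] at this
        rw [this, coeff_zero_eq_constantCoeff_apply]
      rw [← h2, ← hh1 i, coeff_map]; rfl
    exact hunit _ (by rw [e']; exact hWc i) (by rw [e']; exact hWi i) h1
  have hdl' : ∀ i, map σ (d' i) = dl (map σ (h' i)) := by
    intro i
    apply dl_unique (hh'0 i)
    rw [← map_mul, e1, th_map']
  have hSσ : map σ S' = ∑ i, C (σ (lam' i)) * dl (map σ (h' i)) := by
    simp only [S']
    rw [map_sum]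
    refine Finset.sum_congr rfl fun i _ => ?_
    rw [map_mul, map_C, hdl']
  have hfin := nf_log_quot (K := K) (fun i => map σ (h' i)) (fun i => hh2 i K σ) hh'0
    (hg2 K σ) (hw2 K σ) hw'0 Finset.univ (fun i => σ (lam' i)) (by
      rw [← hSσ, ← th_map', ← th_map', ← map_mul, ← map_mul, ← map_sub, e2, map_mul, map_pow])
  rw [← hSσ] at hfin
  have h1 := congrArg (coeff N) hfin
  rw [coeff_map, map_zero] at h1
  have e' : ((coeff N S' : A) : k) = coeff N (∑ i, C (lam i) * dl (h i)) := by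
    rw [← hS', coeff_map]; rfl
  exact hunit _ (by rw [e']; exact hN) (by rw [e']; exact t6 (by simp)) h1

end Run7.h131.PP
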