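import Mathlib
import Pool.Agent.Run7.h131.PP.TowA

/-!
# Towers of iterated integrals with constant coefficients
-/

set_option autoImplicit false
open Polynomial

namespace Run7.h131.PP

variable {Ω : Type*} [Field Ω] [CharZero Ω]

section mv

/-- `V[θ]` -/
def Vx (V : AddSubgroup Ω) (θ : Ω) : AddSubgroup Ω :=
  AddSubgroup.closure {x | ∃ v ∈ V, ∃ n : ℕ, x = v * θ ^ n}

/-- `M[θ]` -/
def Mx (M : Subring Ω) (θ : Ω) : Subring Ω := Subring.closure (M ∪ {θ})

lemma le_Vx (V : AddSubgroup Ω) (θ : Ω) : V ≤ Vx V θ := fun v hv =>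
  AddSubgroup.subset_closure ⟨v, hv, 0, by rw [pow_zero, mul_one]⟩

lemma le_Mx (M : Subring Ω) (θ : Ω) : M ≤ Mx M θ := fun m hm =>
  Subring.subset_closure (Or.inl hm)

lemma self_mem_Mx (M : Subring Ω) (θ : Ω) : θ ∈ Mx M θ :=
  Subring.subset_closure (Or.inr (Set.mem_singleton θ))

lemma Mx_mul_Vx {M : Subring Ω} {V : AddSubgroup Ω} (hMV : ∀ m ∈ M, ∀ v ∈ V, m * v ∈ V) (θ : Ω) :
    ∀ m ∈ Mx M θ, ∀ v ∈ Vx V θ, m * v ∈ Vx V θ := by
  intro m hm
  induction hm using Subring.closure_induction with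
  | mem m hm =>
    intro v hv
    induction hv using AddSubgroup.closure_induction with
    | mem v hv =>
      obtain ⟨v, hv, n, rfl⟩ := hv
      rcases hm with hm | hm
      · exact AddSubgroup.subset_closure ⟨m * v, hMV m hm v hv, n, by ring⟩
      · rw [Set.mem_singleton_iff] at hm
        subst hm
        exact AddSubgroup.subset_closure ⟨v, hv, n + 1, by ring⟩
    | zero => rw [mul_zero]; exact zero_mem _
    | add a b _ _ ha hb => rw [mul_add]; exact add_mem ha hb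
    | neg a _ ha => rw [mul_neg]; exact neg_mem ha
  | zero => intro v _; rw [zero_mul]; exact zero_mem _
  | one => intro v hv; rw [one_mul]; exact hv
  | add a b _ _ ha hb => intro v hv; rw [add_mul]; exact add_mem (ha v hv) (hb v hv)
  | neg a _ ha => intro v hv; rw [neg_mul]; exact neg_mem (ha v hv)
  | mul a b _ _ ha hb => intro v hv; rw [mul_assoc]; exact ha _ (hb v hv)

variable {F : Subfield Ω}

lemma Vx_poly {V : AddSubgroup Ω} (hV : ∀ v ∈ V, v ∈ F) (θ : Ω) {x : Ω} (hx : x ∈ Vx V θ) :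
    ∃ A : F[X], (∀ i, (A.coeff i : Ω) ∈ V) ∧ x = aeval θ A := by
  induction hx using AddSubgroup.closure_induction with
  | mem x hx =>
    obtain ⟨v, hv, n, rfl⟩ := hx
    refine ⟨monomial n ⟨v, hV v hv⟩, fun i => ?_, ?_⟩
    · rw [coeff_monomial]
      split_ifs
      · exact hv
      · exact V.zero_mem
    · rw [aeval_monomial]; rfl
  | zero => exact ⟨0, fun i => V.zero_mem, by simp⟩
  | add a b _ _ ha hb =>
    obtain ⟨A, hA, rfl⟩ := ha
    obtain ⟨B, hB, rfl⟩ := hb
    exact ⟨A + B, fun i => by rw [coeff_add]; exact V.add_mem (hA i) (hB i), by rw [map_add]⟩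
  | neg a _ ha =>
    obtain ⟨A, hA, rfl⟩ := ha
    exact ⟨-A, fun i => by rw [coeff_neg]; exact V.neg_mem (hA i), by rw [map_neg]⟩

lemma poly_Mx {M : Subring Ω} (θ : Ω) {A : F[X]} (hA : ∀ i, (A.coeff i : Ω) ∈ M) :
    aeval θ A ∈ Mx M θ := by
  rw [aeval_eq_sum_range]
  refine sum_mem fun i _ => ?_
  rw [Algebra.smul_def]
  exact mul_mem (le_Mx M θ (hA i)) (pow_mem (self_mem_Mx M θ) i)

/-- **The step.** -/
theorem stepB {D : Derivation ℤ Ω Ω} (hF : DF D F) {M : Subring Ω} {V : AddSubgroup Ω}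
    (hV : ∀ v ∈ V, v ∈ F) (hMV : ∀ m ∈ M, ∀ v ∈ V, m * v ∈ V)
    (hprim : ∀ y ∈ F, D y ∈ V → y ∈ M) {θ : Ω} (hθ : D θ ∈ V) (hθF : θ ∉ F) :
    ∀ y ∈ algc (adj F θ), D y ∈ Vx V θ → y ∈ Mx M θ := by
  intro y hy hDy
  have hθF' : D θ ∈ F := hV _ hθ
  have htr : Transcendental F θ := fun h => hθF (prim_alg hF h hθF')
  have hinj : ∀ A : F[X], aeval θ A = 0 → A = 0 := by
    intro A hA
    by_contra hne
    exact htr ⟨A, hne, hA⟩
  let hF' : F := ⟨D θ, hθF'⟩
  obtain ⟨A, hAV, hA⟩ := Vx_poly hV θ hDy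
  have hy1 : y ∈ adj F θ := prim_alg (hF.toAdj hθF') (mem_algc.1 hy) (by
    rw [hA]; exact aeval_mem_adj θ A)
  -- `y` is a polynomial
  obtain ⟨P, Q, hPQ⟩ := mem_adj.1 hy1
  have hyP : ∃ B : F[X], y = aeval θ B := by
    by_cases hQ : Q = 0
    · exact ⟨0, by rw [hPQ, hQ]; simp⟩
    have hQθ : aeval θ Q ≠ 0 := fun h => hQ (hinj Q h)
    let I : Ideal F[X] :=
      { carrier := {C | ∃ B : F[X], aeval θ C * y = aeval θ B}
        add_mem' := fun {a b} ha hb => by
          obtain ⟨B, hB⟩ := ha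
          obtain ⟨B', hB'⟩ := hb
          exact ⟨B + B', by rw [map_add, add_mul, hB, hB', map_add]⟩
        zero_mem' := ⟨0, by rw [map_zero, zero_mul]⟩
        smul_mem' := fun c {a} ha => by
          obtain ⟨B, hB⟩ := ha
          exact ⟨c * B, by rw [smul_eq_mul, map_mul, mul_assoc, hB, map_mul]⟩ }
    have hI : ∀ C ∈ I, Dp hF hF' C ∈ I := by
      rintro C ⟨B, hB⟩
      have h1 := congrArg D hB
      rw [Derivation.leibniz, smul_eq_mul, smul_eq_mul, aeval_Dp hF (h := hF') rfl,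
        aeval_Dp hF (h := hF') rfl, hA] at h1
      refine ⟨Dp hF hF' B - C * A, ?_⟩
      rw [map_sub, map_mul, ← h1]
      ring
    have hQI : Q ∈ I := ⟨P, by rw [hPQ, mul_div_cancel₀ _ hQθ]⟩
    obtain ⟨B, hB⟩ := dsimple hF (h := hF') rfl hθF I hI (fun h => hQ (by
      rw [h] at hQI; exact (Submodule.mem_bot _).1 hQI))
    exact ⟨B, by rw [map_one, one_mul] at hB; exact hB⟩
  obtain ⟨B, rfl⟩ := hyP
  rw [aeval_Dp hF (h := hF') rfl] at hA
  have hAB : Dp hF hF' B = A := by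
    rw [← sub_eq_zero]
    apply hinj
    rw [map_sub, hA, sub_self]
  -- the coefficients are in `M`
  have hcoef : ∀ j i, B.natDegree < i + j → (B.coeff i : Ω) ∈ M := by
    intro j
    induction j with
    | zero =>
      intro i hi
      rw [coeff_eq_zero_of_natDegree_lt (by omega)]
      exact M.zero_mem
    | succ j ih =>
      intro i hi
      have h1 := ih (i + 1) (by omega)
      apply hprim _ (B.coeff i).2
      have h2 := hAV i
      rw [← hAB, coeff_Dp] at h2
      have h3 : D θ * ((B.coeff (i + 1) : Ω) * ((i : Ω) + 1)) ∈ V := by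
        have h4 : ((B.coeff (i + 1) : Ω) * ((i : Ω) + 1)) ∈ M :=
          mul_mem h1 (add_mem (natCast_mem M i) (one_mem M))
        have := hMV _ h4 _ hθ
        rwa [mul_comm] at this
      have h5 := V.sub_mem h2 h3
      have e : D (B.coeff i : Ω) + (hF' : Ω) * ((B.coeff (i + 1) : Ω) * ((i : Ω) + 1)) -
          D θ * ((B.coeff (i + 1) : Ω) * ((i : Ω) + 1)) = D (B.coeff i : Ω) := by
        change D (B.coeff i : Ω) + D θ * ((B.coeff (i + 1) : Ω) * ((i : Ω) + 1)) -
          D θ * ((B.coeff (i + 1) : Ω) * ((i : Ω) + 1)) = D (B.coeff i : Ω)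
        ring
      rwa [e] at h5
  exact poly_Mx θ fun i => hcoef (B.natDegree + 1) i (by omega)

end mv

section tower

variable {D : Derivation ℤ Ω Ω}

/-- the rings of the tower -/
noncomputable def Mt (M : Subring Ω) (θ : ℕ → Ω) : ℕ → Subring Ω
  | 0 => M
  | n + 1 => Mx (Mt M θ n) (θ n)

/-- the groups of the tower -/
noncomputable def Vt (V : AddSubgroup Ω) (θ : ℕ → Ω) : ℕ → AddSubgroup Ω
  | 0 => V
  | n + 1 => Vx (Vt V θ n) (θ n)

/-- **Towers of iterated integrals.** -/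
theorem towerB {R F : Subfield Ω} (hF : DF D F) (hRF : R ≤ F) {M : Subring Ω}
    {V : AddSubgroup Ω} (hM : ∀ m ∈ M, m ∈ R) (hV : ∀ v ∈ V, v ∈ F)
    (hMV : ∀ m ∈ M, ∀ v ∈ V, m * v ∈ V)
    (hprim : ∀ y ∈ F, D y ∈ V → y ∈ M) (θ : ℕ → Ω) (n : ℕ)
    (hθ : ∀ i < n, D (θ i) ∈ Vt V θ i) :
    ∃ F' : Subfield Ω, DF D F' ∧ Rt R θ n ≤ F' ∧ F ≤ F' ∧ (∀ m ∈ Mt M θ n, m ∈ Rt R θ n) ∧
      (∀ v ∈ Vt V θ n, v ∈ F') ∧ (∀ m ∈ Mt M θ n, ∀ v ∈ Vt V θ n, m * v ∈ Vt V θ n) ∧
      (∀ y ∈ F', D y ∈ Vt V θ n → y ∈ Mt M θ n) ∧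
      ∀ f ∈ F, IsAlgebraic (Rt R θ n) f → IsAlgebraic R f := by
  induction n with
  | zero => exact ⟨F, hF, hRF, le_rfl, hM, hV, hMV, hprim, fun f _ h => h⟩
  | succ n ih =>
    obtain ⟨F', h1, h2, h3, h4, h5, h6, h7, h8⟩ := ih fun i hi => hθ i (by omega)
    have hθn := hθ n (Nat.lt_succ_self n)
    by_cases hmem : θ n ∈ F'
    · have h9 := h7 _ hmem hθn
      have h10 : Rt R θ (n + 1) = Rt R θ n := adj_eq_self (h4 _ h9)
      have h11 : Mt M θ (n + 1) = Mt M θ n := by
        apply le_antisymm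
        · change Subring.closure _ ≤ _
          rw [Subring.closure_le]
          rintro x (hx | hx)
          · exact hx
          · rw [Set.mem_singleton_iff] at hx
            rw [hx]; exact h9
        · exact le_Mx _ _
      have h12 : Vt V θ (n + 1) = Vt V θ n := by
        apply le_antisymm
        · change AddSubgroup.closure _ ≤ _
          rw [AddSubgroup.closure_le]
          rintro x ⟨v, hv, m, rfl⟩
          have := h6 _ (pow_mem h9 m) v hv
          rw [mul_comm]; exact this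
        · exact le_Vx _ _
      rw [h10, h11, h12]
      exact ⟨F', h1, h2, h3, h4, h5, h6, h7, h8⟩
    · have htr : Transcendental F' (θ n) := fun h => hmem (prim_alg h1 h (h5 _ hθn))
      have hle : adj F' (θ n) ≤ algc (adj F' (θ n)) := le_algc _
      refine ⟨algc (adj F' (θ n)), (h1.toAdj (h5 _ hθn)).toAlgc, (adj_mono h2 _).trans hle,
        h3.trans ((le_adj F' _).trans hle), ?_, ?_, Mx_mul_Vx h6 _,
        stepB h1 h5 h6 h7 hθn hmem, fun f hf h => h8 f hf (exch h2 htr (h3 hf) h)⟩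
      · intro m hm
        have : Mx (Mt M θ n) (θ n) ≤ (Rt R θ (n + 1)).toSubring := by
          change Subring.closure _ ≤ _
          rw [Subring.closure_le]
          rintro x (hx | hx)
          · exact le_adj _ _ (h4 _ hx)
          · rw [Set.mem_singleton_iff] at hx
            rw [hx]; exact self_mem_adj _ _
        exact this hm
      · intro v hv
        have : Vx (Vt V θ n) (θ n) ≤ (algc (adj F' (θ n))).toSubring.toAddSubgroup := by
          change AddSubgroup.closure _ ≤ _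
          rw [AddSubgroup.closure_le]
          rintro x ⟨v, hv, m, rfl⟩
          exact hle (mul_mem (le_adj _ _ (h5 v hv)) (pow_mem (self_mem_adj _ _) m))
        exact this hv

lemma Mt_mono {M : Subring Ω} {θ : ℕ → Ω} {m n : ℕ} (h : m ≤ n) : Mt M θ m ≤ Mt M θ n := by
  induction n with
  | zero =>
    obtain rfl : m = 0 := by omega
    exact le_rfl
  | succ n ih =>
    rcases Nat.lt_or_ge n m with h1 | h1
    · obtain rfl : m = n + 1 := by omega
      exact le_rfl
    · exact (ih h1).trans (le_Mx _ _)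

lemma Vt_mono {V : AddSubgroup Ω} {θ : ℕ → Ω} {m n : ℕ} (h : m ≤ n) : Vt V θ m ≤ Vt V θ n := by
  induction n with
  | zero =>
    obtain rfl : m = 0 := by omega
    exact le_rfl
  | succ n ih =>
    rcases Nat.lt_or_ge n m with h1 | h1
    · obtain rfl : m = n + 1 := by omega
      exact le_rfl
    · exact (ih h1).trans (le_Vx _ _)

lemma Mt_mul_Vt {M : Subring Ω} {V : AddSubgroup Ω} (hMV : ∀ m ∈ M, ∀ v ∈ V, m * v ∈ V)
    (θ : ℕ → Ω) (n : ℕ) : ∀ m ∈ Mt M θ n, ∀ v ∈ Vt V θ n, m * v ∈ Vt V θ n := by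
  induction n with
  | zero => exact hMV
  | succ n ih => exact Mx_mul_Vx ih _

end tower

end Run7.h131.PP
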