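import Mathlib
import Pool.Agent.Run7.h131.PP.SOLog
import Pool.Agent.Run7.h131.PP.TowB
import Pool.Agent.Run7.h131.PP.FinA

/-!
# The theorem on iterated integrals of logarithmic forms
-/

set_option autoImplicit false
open PowerSeries
open H497R2 (th dl mul_dl)

namespace Run7.h131.PP

variable {k : Type*} [Field k] [CharZero k] {Ω : Type*} [Field Ω] [CharZero Ω]
  {D : Derivation ℤ Ω Ω} {φ : k⟦X⟧ →+* Ω}

/-- the logarithmic forms -/
def V0 (D : Derivation ℤ Ω Ω) (φ : k⟦X⟧ →+* Ω) : AddSubgroup Ω :=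
  AddSubgroup.closure {x | ∃ (c : k) (h : k⟦X⟧), SO h ∧ h ≠ 0 ∧ x = φ (C c) * (D (φ h) / φ h)}

lemma V0_form (hE : Emb D φ) {x : Ω} (hx : x ∈ V0 D φ) :
    ∃ (ι : Type) (_ : Fintype ι) (lam : ι → k) (h : ι → k⟦X⟧), (∀ i, SO (h i)) ∧
      (∀ i, h i ≠ 0) ∧ φ X * x = φ (∑ i, C (lam i) * dl (h i)) := by
  classical
  induction hx using AddSubgroup.closure_induction with
  | mem x hx =>
    obtain ⟨c, h, h1, h2, rfl⟩ := hx
    refine ⟨Unit, inferInstance, fun _ => c, fun _ => h, fun _ => h1, fun _ => h2, ?_⟩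
    have h3 : φ h ≠ 0 := fun h0 => h2 (hE.inj (by rw [h0, map_zero]))
    have h4 : φ h * φ (dl h) = φ X * D (φ h) := by
      rw [← map_mul, mul_dl, th, map_mul, hE.der]
    rw [Finset.univ_unique, Finset.sum_singleton, map_mul]
    field_simp
    linear_combination (-φ (C c)) * h4
  | zero => exact ⟨Empty, inferInstance, fun i => i.elim, fun i => i.elim, fun i => i.elim,
      fun i => i.elim, by simp⟩
  | add a b _ _ ha hb =>
    obtain ⟨ι, _, lam, h, h1, h2, h3⟩ := ha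
    obtain ⟨ι', _, lam', h', h1', h2', h3'⟩ := hb
    refine ⟨ι ⊕ ι', inferInstance, Sum.elim lam lam', Sum.elim h h', ?_, ?_, ?_⟩
    · rintro (i | i)
      · exact h1 i
      · exact h1' i
    · rintro (i | i)
      · exact h2 i
      · exact h2' i
    · rw [Fintype.sum_sum_type, mul_add, h3, h3', map_add]
      rfl
  | neg a _ ha =>
    obtain ⟨ι, _, lam, h, h1, h2, h3⟩ := ha
    refine ⟨ι, inferInstance, fun i => -lam i, h, h1, h2, ?_⟩
    rw [mul_neg, h3, ← map_neg, ← Finset.sum_neg_distrib]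
    congr 1
    refine Finset.sum_congr rfl fun i _ => ?_
    rw [map_neg, neg_mul]

lemma V0_le (hE : Emb D φ) : ∀ v ∈ V0 D φ, v ∈ F0 hE := by
  intro v hv
  induction hv using AddSubgroup.closure_induction with
  | mem x hx =>
    obtain ⟨c, h, h1, h2, rfl⟩ := hx
    exact (F0 hE).mul_mem (SO.mem hE (SO_C c))
      ((F0 hE).div_mem ((F0_DF hE).stable _ (h1.mem hE)) (h1.mem hE))
  | zero => exact zero_mem _
  | add a b _ _ ha hb => exact add_mem ha hb
  | neg a _ ha => exact neg_mem ha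

lemma V0_mul (m : Ω) (hm : m ∈ (Ck φ).toSubring) : ∀ v ∈ V0 D φ, m * v ∈ V0 D φ := by
  obtain ⟨c', rfl⟩ := hm
  intro v hv
  induction hv using AddSubgroup.closure_induction with
  | mem x hx =>
    obtain ⟨c, h, h1, h2, rfl⟩ := hx
    refine AddSubgroup.subset_closure ⟨c' * c, h, h1, h2, ?_⟩
    rw [map_mul, map_mul, RingHom.comp_apply, mul_assoc]
  | zero => rw [mul_zero]; exact zero_mem _
  | add a b _ _ ha hb => rw [mul_add]; exact add_mem ha hb
  | neg a _ ha => rw [mul_neg]; exact neg_mem ha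

/-- no logarithmic form has a nonconstant primitive in `F0` -/
theorem primB (hE : Emb D φ) : ∀ y ∈ F0 hE, D y ∈ V0 D φ → y ∈ (Ck φ).toSubring := by
  rintro y ⟨g, w, hg, hw, hw0, hgw⟩ hDy
  obtain ⟨ι, _, lam, h, h1, h2, h3⟩ := V0_form hE hDy
  have heq : th g * w - th w * g = (∑ i, C (lam i) * dl (h i)) * w ^ 2 := by
    apply hE.inj
    have h5 := congrArg D hgw
    rw [Derivation.leibniz, hE.der, hE.der, smul_eq_mul, smul_eq_mul] at h5
    rw [map_sub, map_mul, map_mul, th, th, map_mul, map_mul, map_mul φ (∑ i, C (lam i) * dl (h i)),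
      ← h3, map_pow, ← h5, ← hgw]
    ring
  have hS := so_log h h1 h2 hg hw hw0 lam heq
  rw [hS, map_zero] at h3
  have hX : φ X ≠ 0 := fun h0 => X_ne_zero (hE.inj (by rw [h0, map_zero]))
  exact (Ck_DF hE).const y ((mul_eq_zero.1 h3).resolve_left hX)

/-- from quotients to the ring `SOr` -/
lemma SO_of_alg_F0 (hE : Emb D φ) {u : k⟦X⟧} (h : IsAlgebraic (F0 hE) (φ u)) : SO u := by
  classical
  apply SO_alg
  obtain ⟨P, hP0, hP⟩ := h
  have hc : ∀ i, ∃ p q : k⟦X⟧, SO p ∧ SO q ∧ q ≠ 0 ∧ φ q * (P.coeff i : Ω) = φ p :=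
    fun i => (P.coeff i).2
  choose p q hp hq hq0 hpq using hc
  let N := P.natDegree + 1
  let p' : ℕ → SOr k := fun i => ⟨p i, hp i⟩
  let q' : ℕ → SOr k := fun i => ⟨q i, hq i⟩
  let g : ℕ → SOr k := fun i => p' i * ∏ j ∈ (Finset.range N).erase i, q' j
  let Q : SOr k := ∏ j ∈ Finset.range N, q' j
  have hQ : φ (Q : k⟦X⟧) ≠ 0 := by
    simp only [Q]
    rw [SubmonoidClass.coe_finset_prod, map_prod]
    refine Finset.prod_ne_zero_iff.2 fun j _ h0 => hq0 j (hE.inj (by rw [map_zero]; exact h0))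
  have hg : ∀ i ∈ Finset.range N, φ (g i : k⟦X⟧) = φ (Q : k⟦X⟧) * (P.coeff i : Ω) := by
    intro i hi
    have h1 : Q = q' i * ∏ j ∈ (Finset.range N).erase i, q' j :=
      (Finset.mul_prod_erase _ _ hi).symm
    simp only [g]
    rw [h1]
    push_cast
    rw [map_mul, map_mul]
    have h2 : φ (p' i : k⟦X⟧) = φ (q' i : k⟦X⟧) * (P.coeff i : Ω) := (hpq i).symm
    rw [h2]
    ring
  refine ⟨∑ i ∈ Finset.range N, Polynomial.monomial i (g i), ?_, ?_⟩
  · intro h0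
    have h1 := congrArg (fun R : Polynomial (SOr k) => R.coeff P.natDegree) h0
    simp only [Polynomial.finset_sum_coeff, Polynomial.coeff_monomial, Polynomial.coeff_zero] at h1
    rw [Finset.sum_ite_eq' (Finset.range N) P.natDegree,
      if_pos (Finset.self_mem_range_succ _)] at h1
    have h2 := hg P.natDegree (Finset.self_mem_range_succ _)
    rw [h1, ZeroMemClass.coe_zero, map_zero] at h2
    have h3 : (P.coeff P.natDegree : Ω) ≠ 0 := by
      have := Polynomial.leadingCoeff_ne_zero.2 hP0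
      rw [Polynomial.leadingCoeff] at this
      exact_mod_cast this
    exact (mul_ne_zero hQ h3) h2.symm
  · apply hE.inj
    rw [map_zero, map_sum, map_sum]
    have h1 : Polynomial.aeval (φ u) P = ∑ i ∈ Finset.range N, (P.coeff i : Ω) * (φ u) ^ i := by
      rw [Polynomial.aeval_eq_sum_range' (Nat.lt_succ_self _)]; rfl
    rw [hP] at h1
    have h2 : ∀ i ∈ Finset.range N, φ (Polynomial.aeval u (Polynomial.monomial i (g i))) =
        φ (Q : k⟦X⟧) * ((P.coeff i : Ω) * (φ u) ^ i) := by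
      intro i hi
      rw [Polynomial.aeval_monomial, map_mul, map_pow]
      have : φ (algebraMap (SOr k) k⟦X⟧ (g i)) = φ (g i : k⟦X⟧) := rfl
      rw [this, hg i hi]
      ring
    rw [Finset.sum_congr rfl h2, ← Finset.mul_sum, ← h1, mul_zero]

/-- the forms `∑ m_j dh_j / h_j`, with `m_j ∈ k[S]` and `h_j ∈ H` -/
def Forms (D : Derivation ℤ Ω Ω) (φ : k⟦X⟧ →+* Ω) (S H : Set Ω) : AddSubgroup Ω :=
  AddSubgroup.closure {x | ∃ m ∈ Subring.closure (Set.range (fun c : k => φ (C c)) ∪ S),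
    ∃ h ∈ H, x = m * (D h / h)}

lemma Mt_le {θ' : ℕ → Ω} {L : Subring Ω} (hL : (Ck φ).toSubring ≤ L) (i : ℕ)
    (h : ∀ j < i, θ' j ∈ L) : Mt (Ck φ).toSubring θ' i ≤ L := by
  induction i with
  | zero => exact hL
  | succ i ih =>
    change Subring.closure _ ≤ _
    rw [Subring.closure_le]
    rintro x (hx | hx)
    · exact ih (fun j hj => h j (by omega)) hx
    · rw [Set.mem_singleton_iff] at hx
      rw [hx]; exact h i (by omega)

lemma Ck_le_closure (S : Set Ω) :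
    (Ck φ).toSubring ≤ Subring.closure (Set.range (fun c : k => φ (C c)) ∪ S) := by
  rintro _ ⟨c, rfl⟩
  exact Subring.subset_closure (Or.inl ⟨c, rfl⟩)

/-- the set-up -/
lemma log_setup (hE : Emb D φ) {F : Ω} (hF : F ∈ F0 hE) (H : Set Ω)
    (hH : ∀ x ∈ H, ∃ u : k⟦X⟧, u ≠ 0 ∧ x = φ u ∧
      IsAlgebraic (Gen φ (Set.range fun i : ℕ => D^[i] F)) (φ u))
    {n : ℕ} {θ : Fin n → Ω} (hθ : ∀ i, D (θ i) ∈ Forms D φ (θ '' {j | j < i}) H) :
    Gen φ (Set.range fun i : ℕ => D^[i] F) ≤ F0 hE ∧ ∃ θ' : ℕ → Ω, (∀ i : Fin n, θ' i = θ i) ∧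
      ∀ i < n, D (θ' i) ∈ Vt (V0 D φ) θ' i := by
  have hJ : Gen φ (Set.range fun i : ℕ => D^[i] F) ≤ F0 hE := by
    refine Gen_le (R0_le hE) ?_
    rintro _ ⟨i, rfl⟩
    change D^[i] F ∈ F0 hE
    induction i with
    | zero => exact hF
    | succ i ih =>
      rw [Function.iterate_succ_apply']
      exact (F0_DF hE).stable _ ih
  refine ⟨hJ, ?_⟩
  have hHV : ∀ x ∈ H, D x / x ∈ V0 D φ := by
    intro x hx
    obtain ⟨u, hu0, rfl, hua⟩ := hH x hx
    refine AddSubgroup.subset_closure ⟨1, u, SO_of_alg_F0 hE (alg_mono hJ hua), hu0, ?_⟩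
    rw [map_one, map_one, one_mul]
  let θ' : ℕ → Ω := fun i => if h : i < n then θ ⟨i, h⟩ else 0
  have hθ' : ∀ i : Fin n, θ' i = θ i := fun i => by simp [θ']
  refine ⟨θ', hθ', ?_⟩
  have hMV := Mt_mul_Vt (M := (Ck φ).toSubring) (V := V0 D φ) V0_mul θ'
  intro i hi
  have h1 := hθ ⟨i, hi⟩
  rw [← hθ'] at h1
  have h2 : Forms D φ (θ '' {j | j < ⟨i, hi⟩}) H ≤ Vt (V0 D φ) θ' i := by
    rw [Forms, AddSubgroup.closure_le]
    rintro x ⟨m, hm, h, hh, rfl⟩
    refine hMV i m ?_ _ (Vt_mono (Nat.zero_le i) (hHV h hh))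
    have h3 : Subring.closure (Set.range (fun c : k => φ (C c)) ∪ θ '' {j | j < ⟨i, hi⟩}) ≤
        Mt (Ck φ).toSubring θ' i := by
      rw [Subring.closure_le]
      rintro x (⟨c, rfl⟩ | ⟨j, hj, rfl⟩)
      · exact Mt_mono (M := (Ck φ).toSubring) (Nat.zero_le i) ⟨c, rfl⟩
      · rw [← hθ']
        exact Mt_mono (Nat.succ_le_of_lt hj) (self_mem_Mx _ _)
    exact h3 hm
  exact h2 h1

/-- **Independence of the iterated integrals** over the differential field generated by an integral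
series. -/
theorem log_indep (hE : Emb D φ) {F : Ω} (hF : F ∈ F0 hE) (H : Set Ω)
    (hH : ∀ x ∈ H, ∃ u : k⟦X⟧, u ≠ 0 ∧ x = φ u ∧
      IsAlgebraic (Gen φ (Set.range fun i : ℕ => D^[i] F)) (φ u))
    {n : ℕ} {θ : Fin n → Ω} (hθ : ∀ i, D (θ i) ∈ Forms D φ (θ '' {j | j < i}) H) (i : Fin n)
    (hi : IsAlgebraic (Gen φ ((Set.range fun i : ℕ => D^[i] F) ∪ θ '' {j | j < i})) (θ i)) :
    θ i ∈ Subring.closure (Set.range (fun c : k => φ (C c)) ∪ θ '' {j | j < i}) := by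
  obtain ⟨hJ, θ', hθ', hR⟩ := log_setup hE hF H hH hθ
  obtain ⟨F', g1, g2, g3, -, g5, -, g7, -⟩ := towerB (F0_DF hE) (R0_le hE)
    (M := (Ck φ).toSubring) (V := V0 D φ) (fun m hm => le_adj _ _ hm) (V0_le hE) V0_mul
    (primB hE) θ' i (fun j hj => hR j (hj.trans i.2))
  have hle : Gen φ ((Set.range fun i : ℕ => D^[i] F) ∪ θ '' {j | j < i}) ≤ F' := by
    refine Gen_le ((R0_le hE).trans g3) ?_
    rintro _ (⟨j, rfl⟩ | ⟨j, hj, rfl⟩)
    · exact g3 (hJ (Subfield.subset_closure (Or.inr ⟨j, rfl⟩)))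
    · rw [← hθ']
      exact g2 (mem_Rt (R := R0 φ) (θ := θ') (m := j) (n := i) hj)
  have hD := hR i i.2
  have h1 : θ' i ∈ F' := prim_alg g1 (by rw [hθ']; exact alg_mono hle hi) (g5 _ hD)
  have h2 := g7 _ h1 hD
  rw [hθ'] at h2
  refine Mt_le (Ck_le_closure _) i (fun j hj => ?_) h2
  have hjn : j < n := hj.trans i.2
  have : θ' j = θ ⟨j, hjn⟩ := hθ' ⟨j, hjn⟩
  rw [this]
  exact Subring.subset_closure (Or.inr ⟨⟨j, hjn⟩, hj, rfl⟩)

/-- **Iterated integrals of logarithmic forms**, main implication. -/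
theorem log_final (hE : Emb D φ) {ρ : k⟦X⟧} (hρ : IsAlgebraic (Polynomial k) ρ)
    (h0 : constantCoeff ρ = 0) (hne : ρ ≠ 0) {f : ℚ⟦X⟧} (h3 : LL.P3 f) (H : Set Ω)
    (hH : ∀ x ∈ H, ∃ u : k⟦X⟧, u ≠ 0 ∧ x = φ u ∧ IsAlgebraic (Gen φ (Set.range fun i : ℕ =>
      D^[i] (φ (subst ρ (PowerSeries.map (algebraMap ℚ k) f))))) (φ u))
    {n : ℕ} {θ : Fin n → Ω} (hθ : ∀ i, D (θ i) ∈ Forms D φ (θ '' {j | j < i}) H)
    (hf : IsAlgebraic (Gen φ (Set.range θ))
      (φ (subst ρ (PowerSeries.map (algebraMap ℚ k) f)))) :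
    IsAlgebraic (Polynomial k) (PowerSeries.map (algebraMap ℚ k) f) := by
  have hu := (SO_subst h3 (SO_of_alg hρ) h0).mem hE
  obtain ⟨hJ, θ', hθ', hR⟩ := log_setup hE hu H hH hθ
  obtain ⟨F', -, -, -, -, -, -, -, h6⟩ := towerB (F0_DF hE) (R0_le hE)
    (M := (Ck φ).toSubring) (V := V0 D φ) (fun m hm => le_adj _ _ hm) (V0_le hE) V0_mul
    (primB hE) θ' n hR
  have h7 : IsAlgebraic (Rt (R0 φ) θ' n)
      (φ (subst ρ (PowerSeries.map (algebraMap ℚ k) f))) := by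
    refine alg_mono (Gen_le (Rt_mono (m := 0) (Nat.zero_le _)) ?_) hf
    rintro _ ⟨j, rfl⟩
    rw [← hθ']
    exact mem_Rt (R := R0 φ) (θ := θ') (m := j) (n := n) j.2
  exact alg_of_cmp h0 hne (alg_swap h0 hne hρ (alg_R0 hE (h6 _ hu h7)))

end Run7.h131.PP
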